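import Mathlib

/-!
# Modules with an action of a Borel subalgebra and their induction (definitions)

Project: Kirillov's conjecture on skew divided differences (MP_9c9c2f_co, frozen statement S10395).

`A` = set of rows, `C` = set of columns, `J` = set of simple roots; the root `j` moves the row
`src j` to the row `tgt j` (in type A: `src j = j + 1`, `tgt j = j`).
-/

set_option autoImplicit false

namespace Pool.Agent.Q160.SK

open Filter Topology

/-- Rows `A`, simple roots `J`. -/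
structure Dat (A J : Type) where
  src : J → A
  tgt : J → A
  side : A → Bool
  ne : ∀ j, src j ≠ tgt j
  side_eq : ∀ j, side (src j) = side (tgt j)
  src_inj : ∀ i j, src i = src j → i = j
  tgt_inj : ∀ i j, tgt i = tgt j → i = j
  nocyc : ∀ i j, src i = tgt j → tgt i ≠ src j

section defs

variable {A J C X : Type} [DecidableEq A] [Fintype A] [DecidableEq J] [DecidableEq C] [Fintype C]
  [AddCommGroup X] [Module ℚ X]

/-- the weight of the root `j` : `ε_(tgt j) - ε_(src j)` -/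
def Dat.al (R : Dat A J) (j : J) : A → ℤ :=
  fun a => (if a = R.tgt j then 1 else 0) - (if a = R.src j then 1 else 0)

/-- the Cartan number of two roots -/
def Dat.car (R : Dat A J) (i j : J) : ℤ := R.al j (R.tgt i) - R.al j (R.src i)

/-- exchange of the two rows of the root `i` -/
def Dat.sw (R : Dat A J) (i : J) : Equiv.Perm A := Equiv.swap (R.src i) (R.tgt i)

/-- the domain of the torus parameters -/
def Dat.U (R : Dat A J) : Set (A → ℝ) :=
  {t | (∀ a, 0 < t a) ∧ ∀ a b, a ≠ b → R.side a = R.side b → t a ≠ t b}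

/-- Operators on a rational vector space `X`: `Z a c` (multiplication by the variable `z_(a,c)`),
`e j` (the simple root vectors), `h a` (the torus). -/
structure Ops (A J C X : Type) [AddCommGroup X] [Module ℚ X] where
  Z : A → C → Module.End ℚ X
  e : J → Module.End ℚ X
  h : A → Module.End ℚ X

/-- the relations -/
structure Rels (R : Dat A J) (O : Ops A J C X) : Prop where
  ZZ : ∀ a c b d, O.Z a c * O.Z b d = O.Z b d * O.Z a c
  hh : ∀ a b, O.h a * O.h b = O.h b * O.h a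
  hZ : ∀ a b c, O.h a * O.Z b c = O.Z b c * O.h a + (if a = b then O.Z b c else 0)
  he : ∀ a j, O.h a * O.e j = O.e j * O.h a + (R.al j a : ℚ) • O.e j
  eZ : ∀ j a c, O.e j * O.Z a c = O.Z a c * O.e j + (if a = R.src j then O.Z (R.tgt j) c else 0)
  serre0 : ∀ i j, i ≠ j → R.car i j = 0 → O.e i * O.e j = O.e j * O.e i
  serre1 : ∀ i j, i ≠ j → R.car i j = -1 →
    O.e i * O.e i * O.e j - (2 : ℚ) • (O.e i * O.e j * O.e i) + O.e j * O.e i * O.e i = 0

/-- weight spaces -/
def Ops.W (O : Ops A J C X) (μ : A → ℤ) : Submodule ℚ X where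
  carrier := {x | ∀ a, O.h a x = (μ a : ℚ) • x}
  add_mem' := by
    intro x y hx hy a
    rw [map_add, hx a, hy a, smul_add]
  zero_mem' := by
    intro a
    rw [map_zero, smul_zero]
  smul_mem' := by
    intro c x hx a
    rw [map_smul, hx a, smul_comm]

/-- dimension of a weight space of `M` -/
noncomputable def Ops.dm (O : Ops A J C X) (M : Submodule ℚ X) (μ : A → ℤ) : ℕ :=
  Module.finrank ℚ ↥(M ⊓ O.W μ)

/-- Hilbert series of `M` at the torus element `exp (-t)` -/
noncomputable def Ops.hs (O : Ops A J C X) (M : Submodule ℚ X) (t : A → ℝ) : ℝ :=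
  ∑' μ : A → ℤ, (O.dm M μ : ℝ) * Real.exp (-(∑ a, (μ a : ℝ) * t a))

/-- Finitely generated modules over the polynomial ring with a compatible action of the Borel
subalgebra. -/
structure Good (R : Dat A J) (O : Ops A J C X) (M : Submodule ℚ X) : Prop where
  rels : Rels R O
  Zst : ∀ a c, ∀ x ∈ M, O.Z a c x ∈ M
  est : ∀ j, ∀ x ∈ M, O.e j x ∈ M
  span : M ≤ ⨆ μ, M ⊓ O.W μ
  fin : ∀ μ, Module.Finite ℚ ↥(M ⊓ O.W μ)
  bdd : ∃ c : ℤ, ∀ μ, M ⊓ O.W μ ≠ ⊥ → ∀ a, -c ≤ μ a
  gen : ∃ d : ℤ, ∀ μ, d < ∑ a, μ a →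
    M ⊓ O.W μ ≤ ⨆ p : A × C, (M ⊓ O.W (μ - Pi.single p.1 1)).map (O.Z p.1 p.2)
  summ : ∀ t ∈ R.U, Summable (fun μ : A → ℤ =>
    (O.dm M μ : ℝ) * Real.exp (-(∑ a, (μ a : ℝ) * t a)))

/-- Vanishing of the first cohomology of `M` twisted by `k`. -/
def Van (R : Dat A J) (O : Ops A J C X) (i : J) (M : Submodule ℚ X) (k : ℤ) : Prop :=
  ∀ (p : ℕ) (μ : A → ℤ), μ (R.tgt i) - μ (R.src i) = k - p →
    ∀ y ∈ M ⊓ O.W (μ + ((p : ℤ) + 1) • R.al i), ∃ x ∈ M ⊓ O.W μ, (O.e i ^ (p + 1)) x = y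

/-- what is needed for the vanishing theorem -/
structure Pre (R : Dat A J) (O : Ops A J C X) (i : J) (M : Submodule ℚ X) : Prop where
  hZ : ∀ a b c, O.h a * O.Z b c = O.Z b c * O.h a + (if a = b then O.Z b c else 0)
  he : ∀ a, O.h a * O.e i = O.e i * O.h a + (R.al i a : ℚ) • O.e i
  eZ : ∀ a c, O.e i * O.Z a c = O.Z a c * O.e i + (if a = R.src i then O.Z (R.tgt i) c else 0)
  Zst : ∀ a c, ∀ x ∈ M, O.Z a c x ∈ M
  est : ∀ x ∈ M, O.e i x ∈ M
  bdd : ∃ c : ℤ, ∀ μ, M ⊓ O.W μ ≠ ⊥ → ∀ a, -c ≤ μ a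
  gen : ∃ d : ℤ, ∀ μ, d < ∑ a, μ a →
    M ⊓ O.W μ ≤ ⨆ p : A × C, (M ⊓ O.W (μ - Pi.single p.1 1)).map (O.Z p.1 p.2)

/-! ### polynomials in one variable `z` with coefficients in `X` -/

/-- coefficientwise action -/
noncomputable def hat (T : Module.End ℚ X) : Module.End ℚ (ℕ →₀ X) := Finsupp.mapRange.linearMap T

/-- multiplication by `z` -/
noncomputable def zz : Module.End ℚ (ℕ →₀ X) := Finsupp.lmapDomain X ℚ Nat.succ

/-- derivative with respect to `z` -/
noncomputable def dd : Module.End ℚ (ℕ →₀ X) :=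
  Finsupp.lsum ℚ (fun q : ℕ => (q : ℚ) • Finsupp.lsingle (q - 1))

/-- the operators on `X[z]` -/
noncomputable def ind (R : Dat A J) (O : Ops A J C X) (i : J) : Ops A J C (ℕ →₀ X) where
  Z := fun a c => hat (O.Z a c) - (if a = R.tgt i then zz * hat (O.Z (R.src i) c) else 0)
  e := fun j => if j = i then
      hat (O.e i) + zz * hat (O.h (R.tgt i) - O.h (R.src i)) + zz * zz * dd
    else hat (O.e j)
  h := fun a => hat (O.h a) + (R.al i a : ℚ) • (zz * dd)

/-- the induced module -/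
noncomputable def indM (R : Dat A J) (O : Ops A J C X) (i : J) (M : Submodule ℚ X) :
    Submodule ℚ (ℕ →₀ X) where
  carrier := {f | (∀ q, f q ∈ M) ∧ ∃ N : ℕ, ((ind R O i).e i ^ N) f = 0}
  add_mem' := by
    rintro f g ⟨hf, N, hN⟩ ⟨hg, K, hK⟩
    refine ⟨fun q => by rw [Finsupp.add_apply]; exact M.add_mem (hf q) (hg q), N + K, ?_⟩
    rw [map_add]
    have h1 : ((ind R O i).e i ^ (N + K)) f = 0 := by
      rw [add_comm, pow_add, Module.End.mul_apply, hN, map_zero]
    have h2 : ((ind R O i).e i ^ (N + K)) g = 0 := by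
      rw [pow_add, Module.End.mul_apply, hK, map_zero]
    rw [h1, h2, add_zero]
  zero_mem' := ⟨fun q => by rw [Finsupp.zero_apply]; exact M.zero_mem, 0, by simp⟩
  smul_mem' := by
    rintro c f ⟨hf, N, hN⟩
    refine ⟨fun q => by rw [Finsupp.smul_apply]; exact M.smul_mem c (hf q), N, ?_⟩
    rw [map_smul, hN, smul_zero]

/-- the tensor product with the space spanned by the variables -/
noncomputable def tens (R : Dat A J) (O : Ops A J C X) : Ops A J C (A × C → X) where
  Z := fun a c => LinearMap.pi (fun p => O.Z a c ∘ₗ (LinearMap.proj p : (A × C → X) →ₗ[ℚ] X))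
  e := fun j => LinearMap.pi (fun p => O.e j ∘ₗ (LinearMap.proj p : (A × C → X) →ₗ[ℚ] X) +
    (if p.1 = R.tgt j then (LinearMap.proj (R.src j, p.2) : (A × C → X) →ₗ[ℚ] X) else 0))
  h := fun a => LinearMap.pi (fun p => O.h a ∘ₗ (LinearMap.proj p : (A × C → X) →ₗ[ℚ] X) +
    (if p.1 = a then (LinearMap.proj p : (A × C → X) →ₗ[ℚ] X) else 0))

/-- the kernel of the multiplication map -/
def kerM (O : Ops A J C X) (M : Submodule ℚ X) : Submodule ℚ (A × C → X) where
  carrier := {g | (∀ p, g p ∈ M) ∧ ∑ p : A × C, O.Z p.1 p.2 (g p) = 0}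
  add_mem' := by
    rintro f g ⟨hf, hf2⟩ ⟨hg, hg2⟩
    refine ⟨fun p => M.add_mem (hf p) (hg p), ?_⟩
    simp only [Pi.add_apply, map_add, Finset.sum_add_distrib, hf2, hg2, add_zero]
  zero_mem' := ⟨fun p => M.zero_mem, by simp⟩
  smul_mem' := by
    rintro c f ⟨hf, hf2⟩
    refine ⟨fun p => M.smul_mem c (hf p), ?_⟩
    simp only [Pi.smul_apply, map_smul, ← Finset.smul_sum, hf2, smul_zero]

/-- twist by the character `χ` -/
def Ops.tw (O : Ops A J C X) (χ : A → ℤ) : Ops A J C X where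
  Z := O.Z
  e := O.e
  h := fun a => O.h a + (χ a : ℚ) • (1 : Module.End ℚ X)

end defs

/-- `φ` is the leading term of the Hilbert series of a module of dimension `D`. -/
def HasLead {A J : Type} [DecidableEq A] [Fintype A] [DecidableEq J] (R : Dat A J)
    (C : Type) [DecidableEq C] [Fintype C] (D : ℕ) (φ : (A → ℝ) → ℝ) : Prop :=
  ∃ (X : Type) (_ : AddCommGroup X) (_ : Module ℚ X) (O : Ops A J C X) (M : Submodule ℚ X),
    Good R O M ∧ ∀ t ∈ R.U,
      Tendsto (fun ε : ℝ => ε ^ D * O.hs M (ε • t)) (𝓝[>] 0) (𝓝 (φ t))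

/-- strings of weight spaces of an integrable sl2-module -/
structure Str {Y : Type} [AddCommGroup Y] [Module ℚ Y] (E F H : Module.End ℚ Y)
    (W : ℤ → Submodule ℚ Y) (a : ℤ) : Prop where
  EF : E * F = F * E + H
  HE : H * E = E * H + (2 : ℚ) • E
  HF : H * F = F * H - (2 : ℚ) • F
  hE : ∀ n, ∀ x ∈ W n, E x ∈ W (n + 1)
  hF : ∀ n, ∀ x ∈ W n, F x ∈ W (n - 1)
  hH : ∀ n, ∀ x ∈ W n, H x = ((a + 2 * n : ℤ) : ℚ) • x
  nE : ∀ n, ∀ x ∈ W n, ∃ N : ℕ, (E ^ N) x = 0
  nF : ∀ n, ∀ x ∈ W n, ∃ N : ℕ, (F ^ N) x = 0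

/-- two copies of the same datum -/
def Dat.dbl {A J : Type} (R : Dat A J) : Dat (Bool × A) (Bool × J) where
  src := fun p => (p.1, R.src p.2)
  tgt := fun p => (p.1, R.tgt p.2)
  side := fun p => p.1
  ne := by
    intro j h
    exact R.ne j.2 (congrArg Prod.snd h)
  side_eq := fun j => rfl
  src_inj := by
    intro i j h
    exact Prod.ext (Prod.mk.inj h).1 (R.src_inj _ _ (Prod.mk.inj h).2)
  tgt_inj := by
    intro i j h
    exact Prod.ext (Prod.mk.inj h).1 (R.tgt_inj _ _ (Prod.mk.inj h).2)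
  nocyc := by
    intro i j h h2
    exact R.nocyc i.2 j.2 (congrArg Prod.snd h) (congrArg Prod.snd h2)

/-- type A -/
def typeA (m : ℕ) : Dat (Fin (m + 1)) (Fin m) where
  src := Fin.succ
  tgt := Fin.castSucc
  side := fun _ => false
  ne := by
    intro j h
    rw [Fin.ext_iff] at h
    simp at h
  side_eq := fun j => rfl
  src_inj := fun i j h => Fin.succ_injective _ h
  tgt_inj := fun i j h => Fin.castSucc_injective _ h
  nocyc := by
    intro i j h h2
    rw [Fin.ext_iff] at h h2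
    simp only [Fin.val_succ, Fin.val_castSucc] at h h2
    omega

end Pool.Agent.Q160.SK
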