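import Pool.Agent.Q160.SK.Red3

/-!
# The reduction to the nonnegativity of Schubert structure constants
-/

set_option linter.unusedSimpArgs false

namespace Q160.Red

open MvPolynomial Q160.DD Q160.Lam Q160.Kernel Q160.Diamond Q160.Schub Equiv

variable {m : ℕ}

/-- nonnegativity of Schubert structure constants -/
def S_POS : Prop := ∀ (m : ℕ) (α β γ : List ℕ), (∀ x ∈ α, x < m) → (∀ x ∈ β, x < m) →
  (∀ x ∈ γ, x < m) → 0 ≤ lam γ (Dl α (RR m []) * Dl β (RR m []))

/-! ### stability -/

lemma sv_prod (m k : ℕ) (hk : k ≤ m) (b : ℕ → ℕ) (hb : b k = b (k + 1)) :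
    sv k (∏ j ∈ Finset.range (m + 2), (X j : Poly) ^ b j)
      = ∏ j ∈ Finset.range (m + 2), (X j : Poly) ^ b j := by
  unfold sv
  rw [map_prod]
  apply Finset.prod_bij (fun j _ => Equiv.swap k (k + 1) j)
  · intro j hj
    rw [Finset.mem_range] at hj ⊢
    rw [Equiv.swap_apply_def]
    split_ifs <;> omega
  · intro a _ b _ h
    exact (Equiv.swap k (k + 1)).injective h
  · intro j hj
    refine ⟨Equiv.swap k (k + 1) j, ?_, by simp⟩
    rw [Finset.mem_range] at hj ⊢
    rw [Equiv.swap_apply_def]
    split_ifs <;> omega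
  · intro j _
    rw [map_pow, sw_X]
    congr 1
    rw [Equiv.swap_apply_def]
    split_ifs with h1 h2
    · rw [h1, hb]
    · rw [h2, hb]
    · rfl

lemma RR_step (m : ℕ) : ∀ k, k ≤ m + 1 → Dl (List.range k) (RR (m + 1) [])
    = ∏ j ∈ Finset.range (m + 2), (X j : Poly) ^ (if j < k then m - j else m + 1 - j) := by
  intro k
  induction k with
  | zero =>
    intro _
    rw [List.range_zero]
    show RR (m + 1) [] = _
    rw [RR_nil, Finset.prod_range_succ _ (m + 1)]
    have : (if m + 1 < 0 then m - (m + 1) else m + 1 - (m + 1)) = 0 := by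
      rw [if_neg (by omega)]; omega
    rw [this, pow_zero, mul_one]
    apply Finset.prod_congr rfl
    intro j _
    rw [if_neg (by omega)]
  | succ k ih =>
    intro hk
    rw [List.range_succ, Dl_append, ih (by omega)]
    show pd k _ = _
    set b : ℕ → ℕ := fun j => if j < k + 1 then m - j else m + 1 - j with hb
    have h1 : ∏ j ∈ Finset.range (m + 2), (X j : Poly) ^ (if j < k then m - j else m + 1 - j)
        = (∏ j ∈ Finset.range (m + 2), (X j : Poly) ^ b j) * X k := by
      have hmem : k ∈ Finset.range (m + 2) := by rw [Finset.mem_range]; omega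
      rw [← Finset.mul_prod_erase _ _ hmem, ← Finset.mul_prod_erase _ (fun j => X j ^ b j) hmem]
      have e1 : (if k < k then m - k else m + 1 - k) = b k + 1 := by
        rw [hb]
        simp only [lt_irrefl, if_false]
        rw [if_pos (by omega)]
        omega
      rw [e1, pow_succ]
      have e2 : ∏ j ∈ (Finset.range (m + 2)).erase k,
            (X j : Poly) ^ (if j < k then m - j else m + 1 - j)
          = ∏ j ∈ (Finset.range (m + 2)).erase k, (X j : Poly) ^ b j := by
        apply Finset.prod_congr rfl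
        intro j hj
        have := (Finset.mem_erase.mp hj).1
        congr 1
        rw [hb]
        simp only
        split_ifs <;> omega
      rw [e2]
      ring
    rw [h1]
    have h2 := sv_prod m k (by omega) b (by
      rw [hb]
      simp only
      rw [if_pos (by omega), if_neg (by omega)]
      omega)
    show dd k (k + 1) _ = _
    rw [dd_symm_mul (ne_succ k) h2]
    have h3 : dd k (k + 1) (X k : Poly) = 1 := dd_X_left (ne_succ k)
    rw [h3, mul_one]

lemma RR_succ (m : ℕ) : RR m [] = Dl (List.range (m + 1)) (RR (m + 1) []) := by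
  rw [RR_step m (m + 1) (le_refl _), RR_nil, Finset.prod_range_succ, Finset.prod_range_succ]
  have e1 : (if m + 1 < m + 1 then m - (m + 1) else m + 1 - (m + 1)) = 0 := by
    rw [if_neg (by omega)]; omega
  have e2 : (if m < m + 1 then m - m else m + 1 - m) = 0 := by
    rw [if_pos (by omega)]; omega
  rw [e1, e2, pow_zero, pow_zero, mul_one, mul_one]
  apply Finset.prod_congr rfl
  intro j hj
  rw [Finset.mem_range] at hj
  rw [if_pos (by omega)]

lemma RR_stable {m m' : ℕ} (h : m ≤ m') :
    ∃ α : List ℕ, (∀ x ∈ α, x < m') ∧ RR m [] = Dl α (RR m' []) := by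
  induction m', h using Nat.le_induction with
  | base => exact ⟨[], by simp, rfl⟩
  | succ k hk ih =>
    obtain ⟨α, h1, h2⟩ := ih
    refine ⟨List.range (k + 1) ++ α, ?_, ?_⟩
    · intro x hx
      rw [List.mem_append] at hx
      rcases hx with h | h
      · exact List.mem_range.mp h
      · have := h1 x h; omega
    · rw [Dl_append, ← RR_succ, h2]

lemma Lf_word (w : Perm (Fin (m + 1))) :
    ∃ c : List ℕ, (∀ x ∈ c, x < m) ∧ ∀ f, Lf m w f = Dl c f := by
  revert w
  apply left_induction
  · exact ⟨[], by simp, fun f => Lf_one f⟩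
  · rintro w i hi ⟨c, h1, h2⟩
    refine ⟨c ++ [(i : ℕ)], ?_, ?_⟩
    · intro x hx
      rw [List.mem_append, List.mem_singleton] at hx
      rcases hx with h | h
      · exact h1 x h
      · rw [h]; exact i.isLt
    · intro f
      rw [Lf_step w i hi, h2, Dl_append]
      rfl

/-! ### Leibniz rule for all polynomials -/

lemma Lf_symm_mul {h : Poly} (hh : ∀ i : Fin m, sv i h = h) (w : Perm (Fin (m + 1))) (f : Poly) :
    Lf m w (h * f) = h * Lf m w f := by
  revert w
  apply left_induction
  · rw [Lf_one, Lf_one]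
  · intro w i hi h1
    rw [Lf_step w i hi, Lf_step w i hi, h1]
    exact dd_symm_mul (ne_succ i) (hh i) _

/-- inclusion of the polynomials in `m + 1` variables -/
noncomputable def inc (n : ℕ) : MvPolynomial (Fin n) ℤ →ₐ[ℤ] Poly := rename Fin.val

lemma inc_mem {n : ℕ} (f : MvPolynomial (Fin n) ℤ) : inc n f ∈ Bel n := by
  unfold Bel
  rw [mem_supported]
  intro k hk
  have h1 : k ∈ (rename (R := ℤ) (Fin.val : Fin n → ℕ) f).vars := hk
  have h2 := vars_rename (Fin.val : Fin n → ℕ) f h1
  rw [Finset.mem_image] at h2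
  obtain ⟨j, _, hj⟩ := h2
  rw [← hj]
  exact j.isLt

lemma mono_split (n : ℕ) (u : ℕ →₀ ℕ) (a : ℤ) : ∃ (g : MvPolynomial (Fin n) ℤ) (h : Poly),
    monomial u a = h * inc n g ∧ ∀ i, i + 1 < n → sv i h = h := by
  induction u using Finsupp.induction with
  | zero =>
    refine ⟨C a, 1, ?_, ?_⟩
    · rw [one_mul]
      unfold inc
      rw [rename_C]
      rfl
    · intro i _
      exact map_one _
  | single_add k e u _ _ ih =>
    obtain ⟨g, h, h1, h2⟩ := ih
    have h3 : monomial (Finsupp.single k e + u) a = (X k : Poly) ^ e * monomial u a := by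
      rw [X_pow_eq_monomial, monomial_mul, one_mul]
    rw [h3, h1]
    by_cases hk : k < n
    · refine ⟨X ⟨k, hk⟩ ^ e * g, h, ?_, h2⟩
      unfold inc
      rw [map_mul, map_pow, rename_X]
      ring
    · refine ⟨g, X k ^ e * h, by ring, ?_⟩
      intro i hi
      have e1 : sv i (X k ^ e * h) = sv i (X k) ^ e * sv i h := by
        unfold sv
        rw [map_mul, map_pow]
      rw [e1, h2 i hi]
      unfold sv
      rw [sw_X, Equiv.swap_apply_of_ne_of_ne (by omega) (by omega)]

lemma Lf_add' (w : Perm (Fin (m + 1))) (f g : Poly) : Lf m w (f + g) = Lf m w f + Lf m w g :=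
  Lf_add w f g

/-- The reduction: nonnegativity of all coefficients of skew divided differences. -/
theorem reduction (hpos : S_POS) (w u v : Perm (Fin (m + 1)))
    (P : Perm (Fin (m + 1)) → Poly) (hP : ∀ z, P z ∈ Bel (m + 1))
    (hL : ∀ g : MvPolynomial (Fin (m + 1)) ℤ,
      Lf m w (Sch m u * inc (m + 1) g) = ∑ z, P z * Lf m z (inc (m + 1) g))
    (α : ℕ →₀ ℕ) (hα : ∀ k, m < k → α k = 0) : 0 ≤ coeff α (P v) := by
  have hall : ∀ g : Poly, Lf m w (Sch m u * g) = ∑ z, P z * Lf m z g := by
    intro g
    induction g using MvPolynomial.induction_on' with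
    | monomial b a =>
      obtain ⟨g, h, h1, h2⟩ := mono_split (m + 1) b a
      have h3 : ∀ i : Fin m, sv i h = h := fun i => h2 i (by have := i.isLt; omega)
      rw [h1]
      have e1 : Sch m u * (h * inc (m + 1) g) = h * (Sch m u * inc (m + 1) g) := by ring
      rw [e1, Lf_symm_mul h3, hL, Finset.mul_sum]
      apply Finset.sum_congr rfl
      intro z _
      rw [Lf_symm_mul h3]
      ring
    | add p q hp hq =>
      rw [mul_add, Lf_add, hp, hq, ← Finset.sum_add_distrib]
      apply Finset.sum_congr rfl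
      intro z _
      rw [Lf_add, mul_add]
  obtain ⟨m', Ω, β, h1, h2, h3, h4⟩ := iso_all α.degree m v α rfl hα
  obtain ⟨c, c1, c2⟩ := Lf_word w
  obtain ⟨b, b1, b2⟩ := Sch_word u
  obtain ⟨a, a1, a2⟩ := RR_stable h1
  rw [← h4 P hP, ← hall, c2]
  have h5 : ∀ f, lam Ω (Dl c f) = lam (c ++ Ω) f := by
    intro f
    unfold lam
    rw [Dl_append]
  rw [h5, b2, a2, ← Dl_append]
  apply hpos m' (a ++ b) β (c ++ Ω)
  · intro x hx
    rw [List.mem_append] at hx
    rcases hx with h | h
    · exact a1 x h
    · have := b1 x h; omega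
  · exact h3
  · intro x hx
    rw [List.mem_append] at hx
    rcases hx with h | h
    · have := c1 x h; omega
    · exact h2 x h

/-! ### the frozen statement -/

lemma inc_swap {n : ℕ} (i j : Fin n) (hij : (j : ℕ) = i + 1) (f : MvPolynomial (Fin n) ℤ) :
    inc n (rename (⇑(Equiv.swap i j)) f) = sv i (inc n f) := by
  unfold inc sv sw
  rw [rename_rename, rename_rename]
  have h0 : (Fin.val ∘ (Equiv.swap i j) : Fin n → ℕ)
      = (Equiv.swap (i : ℕ) ((i : ℕ) + 1)) ∘ Fin.val := by
    funext x
    simp only [Function.comp]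
    rw [← hij, Equiv.swap_apply_def, Equiv.swap_apply_def]
    by_cases h1 : x = i
    · rw [if_pos h1, if_pos (by rw [h1])]
    · rw [if_neg h1, if_neg (fun e => h1 (Fin.ext e))]
      by_cases h2 : x = j
      · rw [if_pos h2, if_pos (by rw [h2])]
      · rw [if_neg h2, if_neg (fun e => h2 (Fin.ext e))]
  rw [h0]

theorem frozen_of_pos (hpos : S_POS) :
    ∀ (n : ℕ) (D : Equiv.Perm (Fin n) → MvPolynomial (Fin n) ℤ → MvPolynomial (Fin n) ℤ)
      (E : Equiv.Perm (Fin n) → Equiv.Perm (Fin n) → MvPolynomial (Fin n) ℤ → MvPolynomial (Fin n) ℤ),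
      (∀ f, D 1 f = f) →
      (∀ (w : Equiv.Perm (Fin n)) (i j : Fin n), j.val = i.val + 1 →
        (Finset.univ.filter (fun p : Fin n × Fin n =>
            p.1 < p.2 ∧ (Equiv.swap i j * w) p.2 < (Equiv.swap i j * w) p.1)).card
          < (Finset.univ.filter (fun p : Fin n × Fin n => p.1 < p.2 ∧ w p.2 < w p.1)).card →
        ∀ f, (MvPolynomial.X i - MvPolynomial.X j) * D w f
          = D (Equiv.swap i j * w) f
            - MvPolynomial.rename (⇑(Equiv.swap i j)) (D (Equiv.swap i j * w) f)) →
      (∀ (w : Equiv.Perm (Fin n)) (f g : MvPolynomial (Fin n) ℤ),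
        D w (f * g) = ∑ v : Equiv.Perm (Fin n), E w v f * D v g) →
      ∀ (u v w : Equiv.Perm (Fin n)) (m : Fin n →₀ ℕ),
        0 ≤ MvPolynomial.coeff m
          (E w v (D (u⁻¹ * Fin.revPerm)
            (∏ i : Fin n, MvPolynomial.X i ^ (n - 1 - (i : ℕ))))) := by
  intro n D E hD1 hD hE u v w μ
  rcases n with _ | m
  · have h1 : ∀ x : Perm (Fin 0), x = 1 := fun x => Subsingleton.elim _ _
    have h2 : ∀ f g, f * g = E 1 1 f * g := by
      intro f g
      have := hE 1 f g
      rw [hD1] at this
      rw [this]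
      rw [Finset.sum_eq_single 1]
      · rw [hD1]
      · intro b _ hb
        exact absurd (h1 b) hb
      · intro h
        exact absurd (Finset.mem_univ _) h
    have h3 := h2 (D (u⁻¹ * Fin.revPerm)
            (∏ i : Fin 0, MvPolynomial.X i ^ (0 - 1 - (i : ℕ)))) 1
    rw [mul_one, mul_one] at h3
    rw [h1 w, h1 v, ← h3, h1 (u⁻¹ * Fin.revPerm), hD1]
    rw [Finset.univ_eq_empty, Finset.prod_empty]
    have h4 : μ = 0 := Subsingleton.elim _ _
    rw [h4, coeff_zero_one]
    exact zero_le_one
  · have key : ∀ w f, inc (m + 1) (D w f) = Lf m w (inc (m + 1) f) := by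
      apply left_induction (P := fun w => ∀ f, inc (m + 1) (D w f) = Lf m w (inc (m + 1) f))
      · intro f
        rw [hD1, Lf_one]
      · intro w i hi ih f
        have h1 := hD (s i * w) i.castSucc i.succ (by simp) (by
          have e1 : Equiv.swap i.castSucc i.succ * (s i * w) = w := s_s_mul i w
          rw [e1]
          have h2 := inv_left_asc w i hi
          unfold Q160.Diamond.inv at h2
          omega) f
        have e1 : Equiv.swap i.castSucc i.succ * (s i * w) = w := s_s_mul i w
        rw [e1] at h1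
        have h2 := congrArg (inc (m + 1)) h1
        rw [map_mul, map_sub, map_sub, inc_swap _ _ (by simp), ih] at h2
        rw [Lf_step w i hi]
        symm
        apply dd_unique (ne_succ i)
        have e2 : inc (m + 1) (X i.castSucc) = X (i : ℕ) := by
          unfold inc; rw [rename_X]; rfl
        have e3 : inc (m + 1) (X i.succ) = X ((i : ℕ) + 1) := by
          unfold inc; rw [rename_X]; rfl
        rw [e2, e3] at h2
        exact h2
    have hRR : inc (m + 1) (∏ i : Fin (m + 1), MvPolynomial.X i ^ (m + 1 - 1 - (i : ℕ)))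
        = RR m [] := by
      unfold inc
      rw [map_prod, RR_nil]
      have h1 : ∀ i : Fin (m + 1), rename (R := ℤ) (Fin.val : Fin (m + 1) → ℕ)
          (X i ^ (m + 1 - 1 - (i : ℕ))) = (X (i : ℕ) : Poly) ^ (m - (i : ℕ)) := by
        intro i
        rw [map_pow, rename_X]
        congr 1
      rw [Finset.prod_congr rfl (fun i _ => h1 i),
        Fin.prod_univ_eq_prod_range (fun i => (X i : Poly) ^ (m - i)) (m + 1),
        Finset.prod_range_succ, Nat.sub_self, pow_zero, mul_one]
    set F := D (u⁻¹ * Fin.revPerm)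
            (∏ i : Fin (m + 1), MvPolynomial.X i ^ (m + 1 - 1 - (i : ℕ))) with hF
    have hFS : inc (m + 1) F = Sch m u := by
      rw [hF, key, hRR]
      rfl
    have h1 := reduction hpos w u v (fun z => inc (m + 1) (E w z F)) (fun z => inc_mem _)
      (by
        intro g
        rw [← hFS, ← map_mul, ← key, hE, map_sum]
        apply Finset.sum_congr rfl
        intro z _
        rw [map_mul, key]) (Finsupp.mapDomain Fin.val μ) (by
        intro k hk
        apply Finsupp.mapDomain_of_notMem_range
        rintro ⟨j, hj⟩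
        have := j.isLt
        omega)
    have h2 : coeff (Finsupp.mapDomain Fin.val μ) (inc (m + 1) (E w v F)) = coeff μ (E w v F) :=
      coeff_rename_mapDomain _ Fin.val_injective _ _
    rw [h2] at h1
    exact h1

end Q160.Red
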