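import Pool.Agent.Q160.SK.Stm
import Pool.Agent.Q160.SK.Red4

/-!
# Assembly: nonnegativity of the Schubert structure constants
-/

set_option autoImplicit false

namespace Pool.Agent.Q160.SK

open Filter Topology MvPolynomial Q160.DD Q160.Lam Q160.Kernel Q160.Red

/-- evaluation at a real point -/
noncomputable def evr {m : ℕ} (t : Fin (m + 1) → ℝ) : Poly →ₐ[ℤ] ℝ :=
  aeval (fun k => if h : k < m + 1 then t ⟨k, h⟩ else 0)

lemma evr_X {m : ℕ} (t : Fin (m + 1) → ℝ) (i : Fin (m + 1)) : evr t (X (i : ℕ)) = t i := by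
  unfold evr
  rw [aeval_X, dif_pos i.isLt]

lemma evr_sw {m : ℕ} (t : Fin (m + 1) → ℝ) (i : Fin m) (f : Poly) :
    evr t (sw (i : ℕ) ((i : ℕ) + 1) f)
      = evr (fun a => t (Equiv.swap i.succ i.castSucc a)) f := by
  unfold evr sw
  rw [aeval_rename]
  congr 1
  apply congrArg
  funext k
  simp only [Function.comp]
  have hi := i.isLt
  by_cases h1 : k = i
  · subst h1
    rw [Equiv.swap_apply_left, dif_pos (by omega), dif_pos (by omega)]
    congr 1
    have : (⟨(i : ℕ), by omega⟩ : Fin (m + 1)) = i.castSucc := rfl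
    rw [this, Equiv.swap_apply_right]
    rfl
  · by_cases h2 : k = (i : ℕ) + 1
    · subst h2
      rw [Equiv.swap_apply_right, dif_pos (by omega), dif_pos (by omega)]
      congr 1
      have : (⟨(i : ℕ) + 1, by omega⟩ : Fin (m + 1)) = i.succ := rfl
      rw [this, Equiv.swap_apply_left]
      rfl
    · rw [Equiv.swap_apply_of_ne_of_ne h1 h2]
      by_cases h3 : k < m + 1
      · rw [dif_pos h3, dif_pos h3, Equiv.swap_apply_of_ne_of_ne]
        · intro e
          apply h2
          rw [Fin.ext_iff] at e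
          exact e
        · intro e
          apply h1
          rw [Fin.ext_iff] at e
          exact e
      · rw [dif_neg h3, dif_neg h3]

lemma evr_pd {m : ℕ} (t : Fin (m + 1) → ℝ) (i : Fin m) (f : Poly)
    (h : t i.castSucc ≠ t i.succ) :
    (evr t f - evr (fun a => t (Equiv.swap i.succ i.castSucc a)) f)
      / (t i.castSucc - t i.succ) = evr t (pd i f) := by
  rw [div_eq_iff (sub_ne_zero.mpr h)]
  have h1 := congrArg (evr t) (dd_spec (i : ℕ) ((i : ℕ) + 1) f)
  rw [map_mul, map_sub, map_sub, evr_sw] at h1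
  have e1 : evr t (X (i : ℕ)) = t i.castSucc := evr_X t i.castSucc
  have e2 : evr t (X ((i : ℕ) + 1)) = t i.succ := evr_X t i.succ
  rw [e1, e2] at h1
  rw [← h1, mul_comm]
  rfl

/-- the limit only matters on `U` -/
lemma HasLead.congr {A J : Type} [DecidableEq A] [Fintype A] [DecidableEq J] {R : Dat A J}
    {C : Type} [DecidableEq C] [Fintype C] {D : ℕ} {φ ψ : (A → ℝ) → ℝ} (h : HasLead R C D φ)
    (hφ : ∀ t ∈ R.U, φ t = ψ t) : HasLead R C D ψ := by
  obtain ⟨X, i1, i2, O, M, hG, hl⟩ := h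
  refine ⟨X, i1, i2, O, M, hG, ?_⟩
  intro t ht
  rw [← hφ t ht]
  exact hl t ht

lemma HasLead.nonneg {A J : Type} [DecidableEq A] [Fintype A] [DecidableEq J] {R : Dat A J}
    {C : Type} [DecidableEq C] [Fintype C] {D : ℕ} {φ : (A → ℝ) → ℝ} (h : HasLead R C D φ)
    {t : A → ℝ} (ht : t ∈ R.U) : 0 ≤ φ t := by
  obtain ⟨X, i1, i2, O, M, hG, hl⟩ := h
  have h1 := hl t ht
  apply ge_of_tendsto h1
  filter_upwards [self_mem_nhdsWithin] with ε hε
  have hε' : (0 : ℝ) < ε := hε
  apply mul_nonneg (pow_nonneg hε'.le _)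
  unfold Ops.hs
  apply tsum_nonneg
  intro μ
  exact mul_nonneg (Nat.cast_nonneg _) (Real.exp_pos _).le

/-- two-sided leading terms -/
noncomputable def Φ2 {m : ℕ} (f g : Poly) (t : Bool × Fin (m + 1) → ℝ) : ℝ :=
  evr (fun a => t (false, a)) f * evr (fun a => t (true, a)) g / ∏ q, t q ^ (m + 1)

/-- one-sided leading terms -/
noncomputable def Φ1 {m : ℕ} (f : Poly) (t : Fin (m + 1) → ℝ) : ℝ :=
  evr t f / ∏ q : Bool × Fin (m + 1), t q.2 ^ (m + 1)

lemma swap_pair_same {m : ℕ} (s : Bool) (i j a : Fin (m + 1)) :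
    Equiv.swap (s, i) (s, j) (s, a) = (s, Equiv.swap i j a) := by
  rw [Equiv.swap_apply_def, Equiv.swap_apply_def]
  by_cases h1 : a = i
  · rw [if_pos (by rw [h1]), if_pos h1]
  · rw [if_neg (fun e => h1 (Prod.mk.inj e).2), if_neg h1]
    by_cases h2 : a = j
    · rw [if_pos (by rw [h2]), if_pos h2]
    · rw [if_neg (fun e => h2 (Prod.mk.inj e).2), if_neg h2]

lemma swap_pair_ne {m : ℕ} (s s' : Bool) (h : s' ≠ s) (i j a : Fin (m + 1)) :
    Equiv.swap (s, i) (s, j) (s', a) = (s', a) := by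
  rw [Equiv.swap_apply_of_ne_of_ne]
  · exact fun e => h (Prod.mk.inj e).1
  · exact fun e => h (Prod.mk.inj e).1

lemma step_two (hS : S_STEP) {m D : ℕ} {f g : Poly} (s : Bool) (i : Fin m)
    (h : HasLead (typeA m).dbl (Fin (m + 1)) D (Φ2 f g)) :
    HasLead (typeA m).dbl (Fin (m + 1)) (D + 1)
      (Φ2 (if s = false then pd i f else f) (if s = true then pd i g else g)) := by
  apply (hS _ _ _ _ _ _ (s, i) h).congr
  intro t ht
  have hpr : ∏ q, t ((typeA m).dbl.sw (s, i) q) ^ (m + 1) = ∏ q, t q ^ (m + 1) :=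
    Equiv.prod_comp ((typeA m).dbl.sw (s, i)) (fun q => t q ^ (m + 1))
  have hne : t (s, i.castSucc) ≠ t (s, i.succ) := by
    apply ht.2
    · intro e
      have := (Prod.mk.inj e).2
      exact (Q160.Diamond.castSucc_ne_succ' i) this
    · rfl
  have hden : t (s, i.castSucc) - t (s, i.succ) ≠ 0 := sub_ne_zero.mpr hne
  show (Φ2 f g t - Φ2 f g (fun a => t ((typeA m).dbl.sw (s, i) a)))
    / (t (s, i.castSucc) - t (s, i.succ)) = _
  unfold Φ2
  rw [hpr]
  have hsw : ∀ (s' : Bool) (a : Fin (m + 1)), (typeA m).dbl.sw (s, i) (s', a)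
      = if s' = s then (s', Equiv.swap i.succ i.castSucc a) else (s', a) := by
    intro s' a
    show Equiv.swap (s, i.succ) (s, i.castSucc) (s', a) = _
    by_cases h1 : s' = s
    · rw [if_pos h1, h1, swap_pair_same]
    · rw [if_neg h1, swap_pair_ne _ _ h1]
  simp only [hsw]
  cases s with
  | false =>
    simp only [if_true, Bool.true_eq_false, Bool.false_eq_true, if_false]
    rw [← evr_pd (fun a => t (false, a)) i f hne]
    field_simp
  | true =>
    simp only [if_true, Bool.true_eq_false, Bool.false_eq_true, if_false]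
    rw [← evr_pd (fun a => t (true, a)) i g hne]
    field_simp

lemma step_one (hS : S_STEP) {m D : ℕ} {f : Poly} (i : Fin m)
    (h : HasLead (typeA m) (Bool × Fin (m + 1)) D (Φ1 f)) :
    HasLead (typeA m) (Bool × Fin (m + 1)) (D + 1) (Φ1 (pd i f)) := by
  apply (hS _ _ _ _ _ _ i h).congr
  intro t ht
  have hpr : ∏ q : Bool × Fin (m + 1), t ((typeA m).sw i q.2) ^ (m + 1)
      = ∏ q : Bool × Fin (m + 1), t q.2 ^ (m + 1) :=
    Equiv.prod_comp (Equiv.prodCongr (Equiv.refl Bool) ((typeA m).sw i))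
      (fun q : Bool × Fin (m + 1) => t q.2 ^ (m + 1))
  have hne : t i.castSucc ≠ t i.succ := by
    apply ht.2
    · exact Q160.Diamond.castSucc_ne_succ' i
    · rfl
  have hden : t i.castSucc - t i.succ ≠ 0 := sub_ne_zero.mpr hne
  show (Φ1 f t - Φ1 f (fun a => t ((typeA m).sw i a))) / (t i.castSucc - t i.succ) = _
  unfold Φ1
  rw [hpr, ← evr_pd t i f hne]
  have hsw : ∀ a, (typeA m).sw i a = Equiv.swap i.succ i.castSucc a := fun a => rfl
  simp only [hsw]
  field_simp

lemma words_two (hS : S_STEP) {m : ℕ} (s : Bool) (α : List ℕ) (hα : ∀ x ∈ α, x < m) :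
    ∀ (D : ℕ) (f g : Poly), HasLead (typeA m).dbl (Fin (m + 1)) D (Φ2 f g) →
    ∃ D', HasLead (typeA m).dbl (Fin (m + 1)) D'
      (Φ2 (if s = false then Dl α f else f) (if s = true then Dl α g else g)) := by
  induction α with
  | nil =>
    intro D f g h
    refine ⟨D, ?_⟩
    have e1 : (if s = false then Dl [] f else f) = f := by split_ifs <;> rfl
    have e2 : (if s = true then Dl [] g else g) = g := by split_ifs <;> rfl
    rw [e1, e2]
    exact h
  | cons i α ih =>
    intro D f g h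
    have hi : i < m := hα i List.mem_cons_self
    have h1 := step_two hS s ⟨i, hi⟩ h
    obtain ⟨D', h2⟩ := ih (fun x hx => hα x (List.mem_cons_of_mem _ hx)) _ _ _ h1
    refine ⟨D', ?_⟩
    cases s with
    | false =>
      simp only [if_true, Bool.true_eq_false, Bool.false_eq_true, if_false] at h2 ⊢
      exact h2
    | true =>
      simp only [if_true, Bool.true_eq_false, Bool.false_eq_true, if_false] at h2 ⊢
      exact h2

lemma words_one (hS : S_STEP) {m : ℕ} (α : List ℕ) (hα : ∀ x ∈ α, x < m) :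
    ∀ (D : ℕ) (f : Poly), HasLead (typeA m) (Bool × Fin (m + 1)) D (Φ1 f) →
    ∃ D', HasLead (typeA m) (Bool × Fin (m + 1)) D' (Φ1 (Dl α f)) := by
  induction α with
  | nil => exact fun D f h => ⟨D, h⟩
  | cons i α ih =>
    intro D f h
    have hi : i < m := hα i List.mem_cons_self
    exact ih (fun x hx => hα x (List.mem_cons_of_mem _ hx)) _ _ (step_one hS ⟨i, hi⟩ h)

/-- continuity at the origin -/
lemma evr_cont {m : ℕ} (t : Fin (m + 1) → ℝ) (f : Poly) :
    Continuous (fun ε : ℝ => evr (ε • t) f) := by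
  induction f using MvPolynomial.induction_on with
  | C a =>
    have : ∀ ε : ℝ, evr (ε • t) (C a) = (a : ℝ) := by
      intro ε
      unfold evr
      rw [aeval_C]
      simp
    simp only [this]
    exact continuous_const
  | add p q hp hq =>
    simp only [map_add]
    exact hp.add hq
  | mul_X p k hp =>
    simp only [map_mul]
    apply hp.mul
    unfold evr
    simp only [aeval_X]
    by_cases h : k < m + 1
    · simp only [dif_pos h, Pi.smul_apply, smul_eq_mul]
      exact continuous_id.mul continuous_const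
    · simp only [dif_neg h]
      exact continuous_const

lemma evr_zero {m : ℕ} (f : Poly) : evr (0 : Fin (m + 1) → ℝ) f = (constantCoeff f : ℤ) := by
  induction f using MvPolynomial.induction_on with
  | C a =>
    unfold evr
    rw [aeval_C, constantCoeff_C]
    simp
  | add p q hp hq => rw [map_add, map_add, hp, hq]; push_cast; rfl
  | mul_X p k hp =>
    rw [map_mul, map_mul, hp, constantCoeff_X, mul_zero]
    unfold evr
    rw [aeval_X]
    have : (if h : k < m + 1 then (0 : Fin (m + 1) → ℝ) ⟨k, h⟩ else 0) = 0 := by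
      split_ifs <;> rfl
    rw [this, mul_zero]
    simp

lemma nonneg_of_lead {m D : ℕ} {f : Poly}
    (h : HasLead (typeA m) (Bool × Fin (m + 1)) D (Φ1 f)) : 0 ≤ constantCoeff f := by
  set t0 : Fin (m + 1) → ℝ := fun i => (i : ℝ) + 1 with ht0
  have hpos : ∀ i, 0 < t0 i := by
    intro i
    rw [ht0]
    positivity
  have h1 : ∀ ε : ℝ, 0 < ε → 0 ≤ evr (ε • t0) f := by
    intro ε hε
    have hU : ε • t0 ∈ (typeA m).U := by
      refine ⟨?_, ?_⟩
      · intro a
        exact mul_pos hε (hpos a)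
      · intro a b hab _ e
        apply hab
        have e1 : ε * t0 a = ε * t0 b := e
        have e2 := mul_left_cancel₀ hε.ne' e1
        rw [ht0] at e2
        simp only [add_left_inj, Nat.cast_inj] at e2
        exact Fin.ext e2
    have h2 := h.nonneg hU
    unfold Φ1 at h2
    have h3 : 0 < ∏ q : Bool × Fin (m + 1), (ε • t0) q.2 ^ (m + 1) := by
      apply Finset.prod_pos
      intro q _
      exact pow_pos (hU.1 _) _
    have h4 := mul_nonneg h2 h3.le
    rwa [div_mul_cancel₀ _ h3.ne'] at h4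
  have h2 : Tendsto (fun ε : ℝ => evr (ε • t0) f) (𝓝[>] 0) (𝓝 (evr ((0 : ℝ) • t0) f)) :=
    ((evr_cont t0 f).tendsto 0).mono_left nhdsWithin_le_nhds
  have h3 : 0 ≤ evr ((0 : ℝ) • t0) f := by
    apply ge_of_tendsto h2
    filter_upwards [self_mem_nhdsWithin] with ε hε
    exact h1 ε hε
  rw [zero_smul, evr_zero] at h3
  exact_mod_cast h3

/-- the base polynomial -/
lemma evr_RR {m : ℕ} (t : Fin (m + 1) → ℝ) :
    evr t (RR m []) = ∏ i : Fin (m + 1), t i ^ (m - (i : ℕ)) := by
  rw [RR_nil, map_prod, Fin.prod_univ_castSucc]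
  have h1 : t (Fin.last m) ^ (m - ((Fin.last m : Fin (m + 1)) : ℕ)) = 1 := by
    rw [Fin.val_last, Nat.sub_self, pow_zero]
  rw [h1, mul_one, ← Fin.prod_univ_eq_prod_range (fun j => evr t (X j ^ (m - j))) m]
  apply Finset.prod_congr rfl
  intro i _
  rw [map_pow]
  congr 1
  exact evr_X t i.castSucc

lemma base_two (hB : S_BAS) (m : ℕ) :
    ∃ D, HasLead (typeA m).dbl (Fin (m + 1)) D (Φ2 (RR m []) (RR m [])) := by
  set P : Finset ((Bool × Fin (m + 1)) × Fin (m + 1)) :=
    Finset.univ.filter (fun p => m ≤ (p.1.2 : ℕ) + p.2) with hP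
  have h0 := hB (Bool × Fin (m + 1)) (Bool × Fin m) (Fin (m + 1)) (typeA m).dbl P (by
    rintro ⟨s, j⟩ c hc
    rw [hP, Finset.mem_filter] at hc ⊢
    refine ⟨Finset.mem_univ _, ?_⟩
    have h1 : m ≤ (j.castSucc : ℕ) + (c : ℕ) := hc.2
    show m ≤ (j.succ : ℕ) + (c : ℕ)
    rw [Fin.val_castSucc] at h1
    rw [Fin.val_succ]
    omega)
  refine ⟨P.card, h0.congr ?_⟩
  intro t ht
  have hprod : ∏ p ∈ P, (t p.1)⁻¹ = ∏ q : Bool × Fin (m + 1), ((t q)⁻¹) ^ ((q.2 : ℕ) + 1) := by
    rw [hP, Finset.prod_filter, Fintype.prod_prod_type]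
    apply Finset.prod_congr rfl
    intro q _
    rw [← Finset.prod_filter]
    show ∏ a ∈ Finset.univ.filter (fun c : Fin (m + 1) => m ≤ (q.2 : ℕ) + c), (t q)⁻¹ = _
    rw [Finset.prod_const]
    congr 1
    have h1 : (Finset.univ.filter (fun c : Fin (m + 1) => m ≤ (q.2 : ℕ) + c))
        = Finset.Ici (⟨m - q.2, by omega⟩ : Fin (m + 1)) := by
      ext c
      rw [Finset.mem_filter, Finset.mem_Ici, Fin.le_def]
      simp only [Finset.mem_univ, true_and]
      omega
    have h2 := q.2.isLt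
    show (Finset.univ.filter (fun c : Fin (m + 1) => m ≤ (q.2 : ℕ) + c)).card = _
    rw [h1, Fin.card_Ici]
    show m + 1 - (m - (q.2 : ℕ)) = _
    omega
  rw [hprod]
  unfold Φ2
  rw [evr_RR, evr_RR]
  have h2 : (∏ i : Fin (m + 1), t (false, i) ^ (m - (i : ℕ)))
      * (∏ i : Fin (m + 1), t (true, i) ^ (m - (i : ℕ)))
      = ∏ q : Bool × Fin (m + 1), t q ^ (m - (q.2 : ℕ)) := by
    rw [Fintype.prod_prod_type, Fintype.prod_bool, mul_comm]
  rw [h2, ← Finset.prod_div_distrib]
  apply Finset.prod_congr rfl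
  intro q _
  have h3 : t q ≠ 0 := (ht.1 q).ne'
  have h4 := q.2.isLt
  have h5 : t q ^ (m + 1) = t q ^ (m - (q.2 : ℕ)) * t q ^ ((q.2 : ℕ) + 1) := by
    rw [← pow_add]
    congr 1
    omega
  rw [eq_div_iff (pow_ne_zero _ h3), h5, inv_pow]
  field_simp

/-- **The Schubert structure constants are nonnegative.** -/
theorem pos_of (hS : S_STEP) (hB : S_BAS) (hD : S_DIA) : S_POS := by
  intro m α β γ hα hβ hγ
  obtain ⟨D0, h0⟩ := base_two hB m
  obtain ⟨D1, h1⟩ := words_two hS false α hα D0 _ _ h0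
  obtain ⟨D2, h2⟩ := words_two hS true β hβ D1 _ _ h1
  simp only [if_true, Bool.true_eq_false, Bool.false_eq_true, if_false] at h2
  have h3 := hD _ _ _ (typeA m) D2 _ (fun a b => rfl) h2
  have h4 : HasLead (typeA m) (Bool × Fin (m + 1)) D2
      (Φ1 (Dl α (RR m []) * Dl β (RR m []))) := by
    apply h3.congr
    intro t _
    unfold Φ1 Φ2
    rw [map_mul]
  obtain ⟨D3, h5⟩ := words_one hS γ hγ D2 _ h4
  exact nonneg_of_lead h5

end Pool.Agent.Q160.SK
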