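import Pool.Agent.Q160.Schub

/-!
# The divided difference operators indexed by permutations
-/

set_option linter.unusedSimpArgs false

namespace Q160.Red

open MvPolynomial Q160.DD Q160.Lam Q160.Kernel Q160.Diamond Q160.Schub Equiv

variable {m : ℕ}

lemma ai (w : Perm (Fin (m + 1))) (x : Fin (m + 1)) : w (w⁻¹ x) = x := by
  rw [← Perm.mul_apply, mul_inv_cancel, Perm.one_apply]

lemma ia (w : Perm (Fin (m + 1))) (x : Fin (m + 1)) : w⁻¹ (w x) = x := by
  rw [← Perm.mul_apply, inv_mul_cancel, Perm.one_apply]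

lemma inv_inv_eq (w : Perm (Fin (m + 1))) : inv w⁻¹ = inv w := by
  unfold Q160.Diamond.inv
  apply Finset.card_bij (fun p _ => (w⁻¹ p.2, w⁻¹ p.1))
  · intro p hp
    rw [Finset.mem_filter] at hp ⊢
    refine ⟨Finset.mem_univ _, hp.2.2, ?_⟩
    simp only [ai]
    exact hp.2.1
  · intro p hp q hq h
    rw [Prod.mk.injEq] at h
    exact Prod.ext (w⁻¹.injective h.2) (w⁻¹.injective h.1)
  · intro q hq
    rw [Finset.mem_filter] at hq
    refine ⟨(w q.2, w q.1), ?_, ?_⟩
    · rw [Finset.mem_filter]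
      refine ⟨Finset.mem_univ _, hq.2.2, ?_⟩
      simp only [ia]
      exact hq.2.1
    · simp only [ia]

lemma s_inv (i : Fin m) : (s i)⁻¹ = s i := by
  rw [inv_eq_iff_mul_eq_one]
  exact s_mul_s i

lemma inv_left_asc (w : Perm (Fin (m + 1))) (i : Fin m) (h : w⁻¹ i.castSucc < w⁻¹ i.succ) :
    inv (s i * w) = inv w + 1 := by
  rw [← inv_inv_eq, mul_inv_rev, s_inv, inv_mul_of_asc _ i h, inv_inv_eq]

lemma inv_left_desc (w : Perm (Fin (m + 1))) (i : Fin m) (h : w⁻¹ i.succ < w⁻¹ i.castSucc) :
    inv (s i * w) + 1 = inv w := by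
  rw [← inv_inv_eq, mul_inv_rev, s_inv, inv_mul_of_desc _ i h, inv_inv_eq]

lemma s_s_mul (i : Fin m) (w : Perm (Fin (m + 1))) : s i * (s i * w) = w := by
  rw [← mul_assoc, s_mul_s, one_mul]

lemma left_flip (w : Perm (Fin (m + 1))) (i : Fin m) :
    (s i * w)⁻¹ i.castSucc = w⁻¹ i.succ ∧ (s i * w)⁻¹ i.succ = w⁻¹ i.castSucc := by
  rw [mul_inv_rev, s_inv, Perm.mul_apply, Perm.mul_apply, s_castSucc, s_succ]
  exact ⟨rfl, rfl⟩

/-- induction along left ascents -/
theorem left_induction {P : Perm (Fin (m + 1)) → Prop} (h1 : P 1)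
    (hs : ∀ (w : Perm (Fin (m + 1))) (i : Fin m), w⁻¹ i.castSucc < w⁻¹ i.succ → P w →
      P (s i * w)) : ∀ w, P w := by
  have h : ∀ w : Perm (Fin (m + 1)), P w⁻¹ := by
    apply asc_induction
    · rw [_root_.inv_one]; exact h1
    · intro w i hi hw
      rw [mul_inv_rev, s_inv]
      apply hs _ i _ hw
      rw [inv_inv]
      exact hi
  intro w
  have := h w⁻¹
  rwa [inv_inv] at this

/-- The family of operators `∂_w`. -/
structure LF (m : ℕ) (L : Perm (Fin (m + 1)) → Poly → Poly) : Prop where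
  one : ∀ f, L 1 f = f
  step : ∀ (w : Perm (Fin (m + 1))) (i : Fin m), w⁻¹ i.castSucc < w⁻¹ i.succ →
    ∀ f, L (s i * w) f = pd i (L w f)

lemma exists_LF (m : ℕ) : ∃ L, LF m L := by
  obtain ⟨T, h1, h2⟩ := exists_family (m := m) (A := Poly → Poly) (fun i U f => pd i (U f))
    (by
      intro i j U h
      funext f
      exact pd_comm i j (U f) h)
    (by
      intro i U
      funext f
      exact pd_braid i (U f)) id
  refine ⟨fun w => T w⁻¹, ?_, ?_⟩
  · intro f
    show T 1⁻¹ f = f
    rw [_root_.inv_one, h1]; rfl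
  · intro w i hi f
    show T (s i * w)⁻¹ f = pd i (T w⁻¹ f)
    rw [mul_inv_rev, s_inv, h2 _ i hi]

/-- the chosen family -/
noncomputable def Lf (m : ℕ) : Perm (Fin (m + 1)) → Poly → Poly := (exists_LF m).choose

lemma Lf_one (f : Poly) : Lf m 1 f = f := (exists_LF m).choose_spec.one f

lemma Lf_step (w : Perm (Fin (m + 1))) (i : Fin m) (h : w⁻¹ i.castSucc < w⁻¹ i.succ) (f : Poly) :
    Lf m (s i * w) f = pd i (Lf m w f) := (exists_LF m).choose_spec.step w i h f

lemma Lf_desc (w : Perm (Fin (m + 1))) (i : Fin m) (h : w⁻¹ i.succ < w⁻¹ i.castSucc) (f : Poly) :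
    pd i (Lf m w f) = 0 := by
  have h1 := Lf_step (s i * w) i (by rw [(left_flip w i).1, (left_flip w i).2]; exact h) f
  rw [s_s_mul] at h1
  rw [h1, pd_pd]

lemma left_ne (w : Perm (Fin (m + 1))) (i : Fin m) (h : ¬ w⁻¹ i.castSucc < w⁻¹ i.succ) :
    w⁻¹ i.succ < w⁻¹ i.castSucc := desc_ne w⁻¹ i h

lemma Lf_add (w : Perm (Fin (m + 1))) (f g : Poly) : Lf m w (f + g) = Lf m w f + Lf m w g := by
  revert w
  apply left_induction
  · rw [Lf_one, Lf_one, Lf_one]
  · intro w i hi h
    rw [Lf_step w i hi, Lf_step w i hi, Lf_step w i hi, h, pd_add]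

/-! ### reduced words -/

/-- the composition of divided differences, the last letter acts first -/
noncomputable def cw : List (Fin m) → Poly → Poly
  | [], f => f
  | i :: a, f => pd i (cw a f)

lemma cw_append (a b : List (Fin m)) (f : Poly) : cw (a ++ b) f = cw a (cw b f) := by
  induction a with
  | nil => rfl
  | cons i a ih => simp only [List.cons_append, cw, ih]

/-- the permutation of a word -/
def pw (a : List (Fin m)) : Perm (Fin (m + 1)) := (a.map s).prod

lemma pw_nil : pw ([] : List (Fin m)) = 1 := rfl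
lemma pw_cons (i : Fin m) (a : List (Fin m)) : pw (i :: a) = s i * pw a := by
  simp [pw]
lemma pw_append (a b : List (Fin m)) : pw (a ++ b) = pw a * pw b := by
  simp [pw]

lemma inv_pw_le (a : List (Fin m)) : inv (pw a) ≤ a.length := by
  induction a with
  | nil => rw [pw_nil, Q160.Diamond.inv_one]; exact Nat.zero_le _
  | cons i a ih =>
    rw [pw_cons, List.length_cons]
    by_cases h : (pw a)⁻¹ i.castSucc < (pw a)⁻¹ i.succ
    · rw [inv_left_asc _ i h]; omega
    · have := inv_left_desc _ i (left_ne _ i h)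
      omega

lemma Lf_pw (a : List (Fin m)) (h : inv (pw a) = a.length) (f : Poly) :
    Lf m (pw a) f = cw a f := by
  induction a with
  | nil => rw [pw_nil, Lf_one]; rfl
  | cons i a ih =>
    rw [pw_cons, List.length_cons] at h
    have h1 := inv_pw_le a
    by_cases h2 : (pw a)⁻¹ i.castSucc < (pw a)⁻¹ i.succ
    · rw [inv_left_asc _ i h2] at h
      rw [pw_cons, Lf_step _ i h2, ih (by omega)]
      rfl
    · have := inv_left_desc _ i (left_ne _ i h2)
      omega

lemma exists_red (w : Perm (Fin (m + 1))) : ∃ a : List (Fin m), pw a = w ∧ inv w = a.length := by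
  revert w
  apply asc_induction
  · exact ⟨[], rfl, by rw [Q160.Diamond.inv_one]; rfl⟩
  · rintro w i hi ⟨a, ha, hl⟩
    refine ⟨a ++ [i], ?_, ?_⟩
    · rw [pw_append, ha, pw_cons, pw_nil, mul_one]
    · rw [inv_mul_of_asc w i hi, hl]; simp

lemma Lf_right (w : Perm (Fin (m + 1))) (i : Fin m) (h : w i.castSucc < w i.succ) (f : Poly) :
    Lf m (w * s i) f = Lf m w (pd i f) := by
  obtain ⟨a, ha, hl⟩ := exists_red w
  have h1 : pw (a ++ [i]) = w * s i := by rw [pw_append, ha, pw_cons, pw_nil, mul_one]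
  have h2 : inv (pw (a ++ [i])) = (a ++ [i]).length := by
    rw [h1, inv_mul_of_asc w i h, hl]; simp
  rw [← h1, Lf_pw _ h2, cw_append]
  have h3 := Lf_pw a (by rw [ha, hl]) (pd i f)
  rw [ha] at h3
  rw [h3]
  rfl

/-! ### Schubert polynomials -/

/-- Schubert polynomials -/
noncomputable def Sch (m : ℕ) (u : Perm (Fin (m + 1))) : Poly := Lf m (u⁻¹ * Fin.revPerm) (RR m [])

lemma rev_inv : (Fin.revPerm : Perm (Fin (m + 1)))⁻¹ = Fin.revPerm := by
  rw [inv_eq_iff_mul_eq_one]
  ext x
  simp

lemma Sch_fam (m : ℕ) : Fam m (Sch m) where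
  top := by
    unfold Sch
    rw [inv_mul_cancel, Lf_one]
  step := by
    intro w i hi
    unfold Sch
    rw [mul_inv_rev, s_inv, mul_assoc, Lf_step]
    rw [mul_inv_rev, inv_inv, rev_inv, Perm.mul_apply, Perm.mul_apply, Fin.revPerm_apply,
      Fin.revPerm_apply, Fin.rev_lt_rev]
    exact hi

lemma Lf_zero (w : Perm (Fin (m + 1))) : Lf m w 0 = 0 := by
  revert w
  apply left_induction
  · rw [Lf_one]
  · intro w i hi h
    rw [Lf_step w i hi, h, pd_zero]

/-- duality -/
lemma duality : ∀ z v : Perm (Fin (m + 1)),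
    constantCoeff (Lf m z (Sch m v)) = if z = v then 1 else 0 := by
  have hS := Sch_fam m
  apply asc_induction (P := fun z => ∀ v, constantCoeff (Lf m z (Sch m v)) = if z = v then 1 else 0)
  · intro v
    rw [Lf_one]
    split_ifs with h
    · rw [← h]; exact hS.const_one
    · exact hS.const_eq_zero (fun e => h e.symm)
  · intro z i hi ih v
    rw [Lf_right z i hi]
    rcases hS.pd_cases v i with ⟨h1, h2⟩ | h2
    · rw [h2, ih]
      by_cases h : z = v * s i
      · rw [if_pos h, if_pos]
        rw [h, mul_s_s]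
      · rw [if_neg h, if_neg]
        intro e
        apply h
        rw [← e, mul_s_s]
    · rw [h2, Lf_zero, map_zero]
      by_cases h1 : v i.succ < v i.castSucc
      · -- then the Schubert polynomial of v s_i vanishes: impossible unless the indicator is 0
        rw [if_neg]
        intro e
        have h3 := hS.step v i h1
        rw [h2] at h3
        have h4 := ih (v * s i)
        rw [h3, Lf_zero, map_zero, if_pos] at h4
        · exact zero_ne_one h4
        · rw [← e, mul_s_s]
      · rw [if_neg]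
        intro e
        apply h1
        rw [← e, Perm.mul_apply, Perm.mul_apply, s_castSucc, s_succ]
        exact hi

end Q160.Red
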