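import Pool.Agent.Q160.SK.Red1

/-!
# Isolating a coefficient
-/

set_option linter.unusedSimpArgs false

namespace Q160.Red

open MvPolynomial Q160.DD Q160.Lam Q160.Kernel Q160.Diamond Q160.Schub Equiv

variable {m : ℕ}

/-- exchange of two neighbouring variables -/
noncomputable def sv (i : ℕ) (f : Poly) : Poly := sw i (i + 1) f

lemma pd_mul (i : ℕ) (f g : Poly) : pd i (f * g) = pd i f * g + sv i f * pd i g :=
  dd_mul (ne_succ i) f g

lemma sv_zero (i : ℕ) : sv i 0 = 0 := map_zero _

/-- transformation of families of coefficients -/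
noncomputable def tr (j : Fin m) (Q : Perm (Fin (m + 1)) → Poly) (y : Perm (Fin (m + 1))) : Poly :=
  pd j (Q y) + if y⁻¹ j.succ < y⁻¹ j.castSucc then sv j (Q (s j * y)) else 0

lemma pd_sum_Lf (j : Fin m) (Q : Perm (Fin (m + 1)) → Poly) (g : Poly) :
    pd j (∑ y, Q y * Lf m y g) = ∑ y, tr j Q y * Lf m y g := by
  rw [pd_sum]
  have h1 : ∀ y, pd j (Q y * Lf m y g) = pd j (Q y) * Lf m y g
      + (if y⁻¹ j.castSucc < y⁻¹ j.succ then sv j (Q y) * Lf m (s j * y) g else 0) := by
    intro y
    rw [pd_mul]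
    split_ifs with h
    · rw [Lf_step y j h]
    · rw [Lf_desc y j (left_ne y j h), mul_zero]
  rw [Finset.sum_congr rfl (fun y _ => h1 y), Finset.sum_add_distrib]
  have h2 : ∑ y : Perm (Fin (m + 1)), (if y⁻¹ j.castSucc < y⁻¹ j.succ then
        sv j (Q y) * Lf m (s j * y) g else 0)
      = ∑ y : Perm (Fin (m + 1)), (if y⁻¹ j.succ < y⁻¹ j.castSucc then
        sv j (Q (s j * y)) else 0) * Lf m y g := by
    apply Fintype.sum_equiv (Equiv.mulLeft (s j))
    intro y
    rw [Equiv.coe_mulLeft, (left_flip y j).1, (left_flip y j).2, s_s_mul]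
    split_ifs with h
    · rfl
    · rw [zero_mul]
  rw [h2, ← Finset.sum_add_distrib]
  apply Finset.sum_congr rfl
  intro y _
  unfold tr
  ring

/-! ### supports -/

/-- polynomials in the first `N` variables -/
noncomputable def Bel (N : ℕ) : Subalgebra ℤ Poly := supported ℤ {k | k < N}

/-- polynomials not involving `x_k` -/
noncomputable def Off (k : ℕ) : Subalgebra ℤ Poly := supported ℤ {l | l ≠ k}

lemma mem_Bel {N : ℕ} {f : Poly} : f ∈ Bel N ↔ ∀ k ∈ f.vars, k < N := by
  unfold Bel
  rw [mem_supported]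
  exact ⟨fun h k hk => h hk, fun h k hk => h k hk⟩

lemma Bel_mono {N N' : ℕ} (h : N ≤ N') {f : Poly} (hf : f ∈ Bel N) : f ∈ Bel N' := by
  rw [mem_Bel] at hf ⊢
  intro k hk
  exact lt_of_lt_of_le (hf k hk) h

lemma sv_mem {S : Set ℕ} {S' : Set ℕ} (i : ℕ) (h : ∀ k ∈ S, Equiv.swap i (i + 1) k ∈ S') {f : Poly}
    (hf : f ∈ supported ℤ S) : sv i f ∈ supported ℤ S' := by
  unfold supported at hf
  induction hf using Algebra.adjoin_induction with
  | mem x hx =>
    obtain ⟨k, hk, rfl⟩ := hx
    show sw i (i + 1) (X k) ∈ _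
    rw [sw_X]
    exact (X_mem_supported (R := ℤ)).mpr (h k hk)
  | algebraMap r =>
    show sw i (i + 1) _ ∈ _
    rw [AlgHom.commutes]
    exact Subalgebra.algebraMap_mem _ _
  | add x y _ _ hx hy =>
    have : sv i (x + y) = sv i x + sv i y := map_add _ _ _
    rw [this]
    exact Subalgebra.add_mem _ hx hy
  | mul x y _ _ hx hy =>
    have : sv i (x * y) = sv i x * sv i y := map_mul _ _ _
    rw [this]
    exact Subalgebra.mul_mem _ hx hy

lemma pd_mem {S : Set ℕ} (i : ℕ) (h : ∀ k ∈ S, Equiv.swap i (i + 1) k ∈ S) {f : Poly}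
    (hf : f ∈ supported ℤ S) : pd i f ∈ supported ℤ S := by
  have hf0 := hf
  unfold supported at hf
  induction hf using Algebra.adjoin_induction with
  | mem x hx =>
    obtain ⟨k, hk, rfl⟩ := hx
    by_cases h1 : k = i
    · subst h1
      have : pd k (X k) = 1 := dd_X_left (ne_succ k)
      rw [this]
      exact Subalgebra.one_mem _
    · by_cases h2 : k = i + 1
      · subst h2
        have : pd i (X (i + 1)) = -1 := dd_X_right (ne_succ i)
        rw [this]
        exact Subalgebra.neg_mem _ (Subalgebra.one_mem _)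
      · have : pd i (X k) = 0 := by
          apply dd_of_symm (ne_succ i)
          rw [sw_X, Equiv.swap_apply_of_ne_of_ne h1 h2]
        rw [this]
        exact Subalgebra.zero_mem _
  | algebraMap r =>
    have : pd i (algebraMap ℤ Poly r) = 0 := by
      apply dd_of_symm (ne_succ i)
      rw [AlgHom.commutes]
    rw [this]
    exact Subalgebra.zero_mem _
  | add x y hx' hy' hx hy =>
    rw [pd_add]
    exact Subalgebra.add_mem _ (hx hx') (hy hy')
  | mul x y hx' hy' hx hy =>
    rw [pd_mul]
    exact Subalgebra.add_mem _ (Subalgebra.mul_mem _ (hx hx') hy')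
      (Subalgebra.mul_mem _ (sv_mem i h hx') (hy hy'))

lemma swap_lt {i N : ℕ} (h : i + 1 < N) : ∀ k ∈ {k | k < N}, Equiv.swap i (i + 1) k ∈ {k | k < N} := by
  intro k hk
  rw [Set.mem_ofPred_eq] at hk ⊢
  rw [Equiv.swap_apply_def]
  split_ifs <;> omega

lemma pd_Bel {i N : ℕ} (h : i + 1 < N) {f : Poly} (hf : f ∈ Bel N) : pd i f ∈ Bel N :=
  pd_mem i (swap_lt h) hf

lemma sv_Bel {i N : ℕ} (h : i + 1 < N) {f : Poly} (hf : f ∈ Bel N) : sv i f ∈ Bel N :=
  sv_mem i (swap_lt h) hf

/-! ### coefficients -/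

lemma coeff_sv (i : ℕ) (α : ℕ →₀ ℕ) (h : α i = α (i + 1)) (f : Poly) :
    coeff α (sv i f) = coeff α f := by
  have h1 : Finsupp.mapDomain (Equiv.swap i (i + 1)) α = α := by
    ext k
    have h2 : k = Equiv.swap i (i + 1) (Equiv.swap i (i + 1) k) := by simp
    conv_lhs => rw [h2]
    rw [Finsupp.mapDomain_apply (Equiv.injective _)]
    rw [Equiv.swap_apply_def]
    split_ifs with h3 h4
    · rw [h3]; exact h.symm
    · rw [h4]; exact h
    · rfl
  have h2 := coeff_rename_mapDomain (Equiv.swap i (i + 1)) (Equiv.injective _) f α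
  rw [h1] at h2
  exact h2

/-- setting `x_k = 0` -/
noncomputable def ev0 (k : ℕ) : Poly →ₐ[ℤ] Poly := aeval (fun l => if l = k then 0 else X l)

lemma coeff_ev0 (k : ℕ) (f : Poly) (α : ℕ →₀ ℕ) (h : α k = 0) : coeff α (ev0 k f) = coeff α f := by
  induction f using MvPolynomial.induction_on' generalizing α with
  | monomial u a =>
    by_cases hu : u k = 0
    · have : ev0 k (monomial u a) = monomial u a := by
        unfold ev0
        rw [aeval_monomial]
        rw [monomial_eq]
        congr 1
        apply Finsupp.prod_congr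
        intro l hl
        rw [if_neg]
        rintro rfl
        exact (Finsupp.mem_support_iff.mp hl) hu
      rw [this]
    · have h0 : ev0 k (monomial u a) = 0 := by
        unfold ev0
        rw [aeval_monomial]
        apply mul_eq_zero_of_right
        apply Finset.prod_eq_zero (Finsupp.mem_support_iff.mpr hu)
        show (if k = k then (0 : Poly) else X k) ^ (u k) = 0
        rw [if_pos rfl, zero_pow hu]
      rw [h0, coeff_zero, coeff_monomial, if_neg]
      rintro rfl
      exact hu h
  | add p q hp hq => rw [map_add, coeff_add, coeff_add, hp α h, hq α h]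

lemma ev0_of_Off {k : ℕ} {f : Poly} (hf : f ∈ Off k) : ev0 k f = f := by
  unfold Off supported at hf
  induction hf using Algebra.adjoin_induction with
  | mem x hx =>
    obtain ⟨l, hl, rfl⟩ := hx
    unfold ev0
    rw [aeval_X, if_neg hl]
  | algebraMap r => rw [AlgHom.commutes]
  | add x y _ _ hx hy => rw [map_add, hx, hy]
  | mul x y _ _ hx hy => rw [map_mul, hx, hy]

/-- the coefficient lemma for a divided difference -/
lemma coeff_pd (i : ℕ) (f : Poly) (hf : f ∈ Off (i + 1)) (α : ℕ →₀ ℕ) (h : α (i + 1) = 0) :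
    coeff α (pd i f) = coeff (α + Finsupp.single i 1) f := by
  have h1 : (X i - X (i + 1)) * pd i f = f - sv i f := dd_spec i (i + 1) f
  have h2 := congrArg (ev0 (i + 1)) h1
  rw [map_mul, map_sub, map_sub] at h2
  have e1 : ev0 (i + 1) (X i) = X i := by unfold ev0; rw [aeval_X, if_neg (ne_succ i)]
  have e2 : ev0 (i + 1) (X (i + 1)) = 0 := by unfold ev0; rw [aeval_X, if_pos rfl]
  rw [e1, e2, sub_zero, ev0_of_Off hf] at h2
  have h3 := congrArg (coeff (α + Finsupp.single i 1)) h2
  rw [mul_comm, coeff_mul_X, coeff_ev0 _ _ _ h, coeff_sub] at h3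
  have h4 : coeff (α + Finsupp.single i 1) (ev0 (i + 1) (sv i f)) = 0 := by
    rw [coeff_ev0]
    · -- sv i f does not involve x_i
      have h5 : sv i f ∈ Off i := by
        apply sv_mem i _ hf
        intro k hk
        rw [Set.mem_ofPred_eq] at hk ⊢
        rw [Equiv.swap_apply_def]
        split_ifs <;> omega
      by_contra hc
      have h6 : (α + Finsupp.single i 1) ∈ (sv i f).support := mem_support_iff.mpr hc
      have h7 : i ∈ (sv i f).vars := by
        rw [mem_vars_iff_mem_support]
        refine ⟨_, h6, ?_⟩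
        rw [Finsupp.mem_support_iff, Finsupp.add_apply, Finsupp.single_eq_same]
        omega
      unfold Off at h5
      rw [mem_supported] at h5
      exact (h5 h7) rfl
    · rw [Finsupp.add_apply, h, Finsupp.single_apply, if_neg (ne_succ i)]; rfl
  rw [h4, sub_zero] at h3
  exact h3

end Q160.Red
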