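import Pool.Agent.Q160.SK.Red2

/-!
# Every coefficient can be isolated
-/

set_option linter.unusedSimpArgs false

namespace Q160.Red

open MvPolynomial Q160.DD Q160.Lam Q160.Kernel Q160.Diamond Q160.Schub Equiv

variable {m : ℕ}

/-! ### the embedding of symmetric groups -/

/-- extension of a permutation by a fixed last point -/
def emf (z : Perm (Fin (m + 1))) : Fin (m + 2) → Fin (m + 2) :=
  Fin.lastCases (Fin.last (m + 1)) (fun i => (z i).castSucc)

lemma emf_last (z : Perm (Fin (m + 1))) : emf z (Fin.last (m + 1)) = Fin.last (m + 1) := by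
  unfold emf; rw [Fin.lastCases_last]

lemma emf_castSucc (z : Perm (Fin (m + 1))) (i : Fin (m + 1)) :
    emf z i.castSucc = (z i).castSucc := by
  unfold emf; rw [Fin.lastCases_castSucc]

lemma emf_emf (z w : Perm (Fin (m + 1))) (x : Fin (m + 2)) : emf z (emf w x) = emf (z * w) x := by
  induction x using Fin.lastCases with
  | last => rw [emf_last, emf_last, emf_last]
  | cast i => rw [emf_castSucc, emf_castSucc, emf_castSucc, Perm.mul_apply]

lemma emf_one (x : Fin (m + 2)) : emf (1 : Perm (Fin (m + 1))) x = x := by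
  induction x using Fin.lastCases with
  | last => rw [emf_last]
  | cast i => rw [emf_castSucc, Perm.one_apply]

/-- the embedding -/
def emb (z : Perm (Fin (m + 1))) : Perm (Fin (m + 2)) where
  toFun := emf z
  invFun := emf z⁻¹
  left_inv := by
    intro x
    rw [emf_emf, inv_mul_cancel, emf_one]
  right_inv := by
    intro x
    rw [emf_emf, mul_inv_cancel, emf_one]

lemma emb_last (z : Perm (Fin (m + 1))) : emb z (Fin.last (m + 1)) = Fin.last (m + 1) := emf_last z
lemma emb_castSucc (z : Perm (Fin (m + 1))) (i : Fin (m + 1)) :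
    emb z i.castSucc = (z i).castSucc := emf_castSucc z i

lemma emb_mul (z w : Perm (Fin (m + 1))) : emb (z * w) = emb z * emb w := by
  apply Equiv.ext
  intro x
  exact (emf_emf z w x).symm

lemma emb_one : emb (1 : Perm (Fin (m + 1))) = 1 := by
  apply Equiv.ext
  intro x
  exact emf_one x

lemma emb_inv (z : Perm (Fin (m + 1))) : emb z⁻¹ = (emb z)⁻¹ := by
  rw [eq_inv_iff_mul_eq_one, ← emb_mul, inv_mul_cancel, emb_one]

lemma emb_inj {z w : Perm (Fin (m + 1))} (h : emb z = emb w) : z = w := by
  apply Equiv.ext
  intro i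
  have h1 := congrArg (fun y : Perm (Fin (m + 2)) => y i.castSucc) h
  simp only [emb_castSucc] at h1
  exact Fin.castSucc_injective _ h1

lemma emb_s (i : Fin m) : emb (s i) = s i.castSucc := by
  apply Equiv.ext
  intro x
  apply Fin.ext
  rw [s_val]
  induction x using Fin.lastCases with
  | last =>
    rw [emb_last]
    simp only [Fin.val_last, Fin.val_castSucc]
    have := i.isLt
    split_ifs <;> omega
  | cast j =>
    rw [emb_castSucc]
    simp only [Fin.val_castSucc]
    rw [s_val]

lemma Lf_emb (z : Perm (Fin (m + 1))) (f : Poly) : Lf (m + 1) (emb z) f = Lf m z f := by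
  revert z
  apply left_induction
  · rw [emb_one, Lf_one, Lf_one]
  · intro w i hi h
    rw [emb_mul, emb_s, Lf_step, h, Lf_step w i hi]
    · rfl
    · rw [← emb_inv]
      have h1 : i.castSucc.succ = i.succ.castSucc := by
        apply Fin.ext; simp
      rw [h1, emb_castSucc, emb_castSucc]
      exact Fin.castSucc_lt_castSucc_iff.mpr hi

/-! ### isolation statements -/

/-- the coefficient of `x^α` of the `v`-component can be isolated -/
def Iso (m : ℕ) (v : Perm (Fin (m + 1))) (α : ℕ →₀ ℕ) : Prop :=
  ∃ (m' : ℕ) (Ω β : List ℕ), m ≤ m' ∧ (∀ x ∈ Ω, x < m') ∧ (∀ x ∈ β, x < m') ∧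
    ∀ P : Perm (Fin (m + 1)) → Poly, (∀ z, P z ∈ Bel (m + 1)) →
      lam Ω (∑ z, P z * Lf m z (Dl β (RR m' []))) = coeff α (P v)

/-- restricted families -/
structure QQ (m k : ℕ) (Q : Perm (Fin (m + 2)) → Poly) : Prop where
  bel : ∀ y, Q y ∈ Bel (m + 2)
  van : ∀ y, ((y (Fin.last (m + 1)) : Fin (m + 2)) : ℕ) < k → Q y = 0
  off : ∀ y, ((y (Fin.last (m + 1)) : Fin (m + 2)) : ℕ) = k → Q y ∈ Off k

/-- isolation for restricted families -/
def IsoK (m k : ℕ) (v : Perm (Fin (m + 2))) (α : ℕ →₀ ℕ) : Prop :=
  ∃ (m' : ℕ) (Ω β : List ℕ), m + 1 ≤ m' ∧ (∀ x ∈ Ω, x < m') ∧ (∀ x ∈ β, x < m') ∧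
    ∀ Q : Perm (Fin (m + 2)) → Poly, QQ m k Q →
      lam Ω (∑ y, Q y * Lf (m + 1) y (Dl β (RR m' []))) = coeff α (Q v)

lemma iso_of_isoK {v : Perm (Fin (m + 1))} {α : ℕ →₀ ℕ} (h : IsoK m (m + 1) (emb v) α) :
    Iso m v α := by
  classical
  obtain ⟨m', Ω, β, h1, h2, h3, h4⟩ := h
  refine ⟨m', Ω, β, by omega, h2, h3, ?_⟩
  intro P hP
  set Q : Perm (Fin (m + 2)) → Poly := fun y => ∑ z, if emb z = y then P z else 0 with hQ
  have hQe : ∀ z, Q (emb z) = P z := by
    intro z
    rw [hQ]
    simp only
    rw [Finset.sum_eq_single z]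
    · rw [if_pos rfl]
    · intro w _ hw
      rw [if_neg]
      intro e
      exact hw (emb_inj e)
    · intro hz
      exact absurd (Finset.mem_univ z) hz
  have hbel : ∀ y, Q y ∈ Bel (m + 1) := by
    intro y
    rw [hQ]
    simp only
    apply Subalgebra.sum_mem
    intro z _
    split_ifs
    · exact hP z
    · exact Subalgebra.zero_mem _
  have hq : QQ m (m + 1) Q := by
    refine ⟨fun y => Bel_mono (by omega) (hbel y), ?_, ?_⟩
    · intro y hy
      rw [hQ]
      simp only
      apply Finset.sum_eq_zero
      intro z _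
      rw [if_neg]
      rintro rfl
      rw [emb_last, Fin.val_last] at hy
      omega
    · intro y _
      have h5 := hbel y
      unfold Off
      rw [mem_Bel] at h5
      rw [mem_supported]
      intro k hk
      have := h5 k hk
      show k ≠ m + 1
      omega
  have h5 := h4 Q hq
  rw [hQe] at h5
  rw [← h5]
  congr 1
  have h6 : ∀ y, Q y * Lf (m + 1) y (Dl β (RR m' []))
      = ∑ z, if emb z = y then P z * Lf (m + 1) y (Dl β (RR m' [])) else 0 := by
    intro y
    rw [hQ]
    simp only
    rw [Finset.sum_mul]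
    apply Finset.sum_congr rfl
    intro z _
    split_ifs
    · rfl
    · rw [zero_mul]
  rw [Finset.sum_congr rfl (fun y _ => h6 y), Finset.sum_comm]
  apply Finset.sum_congr rfl
  intro z _
  rw [Finset.sum_ite_eq]
  rw [if_pos (Finset.mem_univ _), Lf_emb]

lemma pd_cons_lam (j : ℕ) (Ω : List ℕ) (f : Poly) : lam (j :: Ω) f = lam Ω (pd j f) := rfl

lemma inv_last {v : Perm (Fin (m + 2))} {k : Fin (m + 2)} (h : v (Fin.last (m + 1)) = k) :
    v⁻¹ k = Fin.last (m + 1) := by
  rw [← h, ia]

lemma lt_last_of_ne {v : Perm (Fin (m + 2))} {k l : Fin (m + 2)} (h : v (Fin.last (m + 1)) = k)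
    (hl : l ≠ k) : v⁻¹ l < v⁻¹ k := by
  rw [inv_last h]
  apply lt_of_le_of_ne (Fin.le_last _)
  intro e
  apply hl
  rw [← ai v l, e, h]

lemma isoK_step {j : Fin (m + 1)} {v : Perm (Fin (m + 2))} {α : ℕ →₀ ℕ}
    (hv : v (Fin.last (m + 1)) = j.succ) (hα : α j = α (j + 1))
    (h : IsoK m j (s j * v) α) : IsoK m (j + 1) v α := by
  obtain ⟨m', Ω, β, h1, h2, h3, h4⟩ := h
  have hj := j.isLt
  refine ⟨m', (j : ℕ) :: Ω, β, h1, ?_, h3, ?_⟩
  · intro x hx
    rcases List.mem_cons.mp hx with h5 | h5
    · omega
    · exact h2 x h5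
  · intro Q hQ
    rw [pd_cons_lam, pd_sum_Lf, h4]
    · unfold tr
      have h5 : ((s j * v) (Fin.last (m + 1)) : Fin (m + 2)) = j.castSucc := by
        rw [Perm.mul_apply, hv, s_succ]
      have h6 : Q (s j * v) = 0 := by
        apply hQ.van
        rw [h5, Fin.val_castSucc]
        omega
      rw [h6, pd_zero, zero_add, s_s_mul, (left_flip v j).1, (left_flip v j).2, if_pos, coeff_sv j α hα]
      exact lt_last_of_ne hv (castSucc_ne_succ' j)
    · refine ⟨?_, ?_, ?_⟩
      · intro y
        unfold tr
        apply Subalgebra.add_mem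
        · exact pd_Bel (by omega) (hQ.bel y)
        · split_ifs
          · exact sv_Bel (by omega) (hQ.bel _)
          · exact Subalgebra.zero_mem _
      · intro y hy
        unfold tr
        have e1 : Q y = 0 := hQ.van y (by omega)
        have e2 : Q (s j * y) = 0 := by
          apply hQ.van
          rw [Perm.mul_apply, s_val]
          split_ifs <;> omega
        rw [e1, e2, pd_zero, sv_zero]
        simp
      · intro y hy
        unfold tr
        have e1 : Q y = 0 := hQ.van y (by omega)
        rw [e1, pd_zero, zero_add]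
        split_ifs with h7
        · have e2 : Q (s j * y) ∈ Off (j + 1) := by
            apply hQ.off
            rw [Perm.mul_apply, s_val, if_pos hy]
          apply sv_mem j _ e2
          intro k hk
          rw [Set.mem_ofPred_eq] at hk ⊢
          rw [Equiv.swap_apply_def]
          split_ifs <;> omega
        · exact Subalgebra.zero_mem _

lemma isoK_final {j : Fin (m + 1)} {v : Perm (Fin (m + 2))} {α : ℕ →₀ ℕ}
    (hv : v (Fin.last (m + 1)) = j.succ) (hα : α (j + 1) = 0)
    (h : Iso (m + 1) v α) : IsoK m (j + 1) v (α + Finsupp.single (j : ℕ) 1) := by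
  obtain ⟨m', Ω, β, h1, h2, h3, h4⟩ := h
  have hj := j.isLt
  refine ⟨m', (j : ℕ) :: Ω, β, h1, ?_, h3, ?_⟩
  · intro x hx
    rcases List.mem_cons.mp hx with h5 | h5
    · omega
    · exact h2 x h5
  · intro Q hQ
    rw [pd_cons_lam, pd_sum_Lf, h4]
    · unfold tr
      rw [if_neg, add_zero, coeff_pd]
      · apply hQ.off
        rw [hv, Fin.val_succ]
      · exact hα
      · exact not_lt.mpr (lt_last_of_ne hv (castSucc_ne_succ' j)).le
    · intro y
      unfold tr
      apply Subalgebra.add_mem
      · exact pd_Bel (by omega) (hQ.bel y)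
      · split_ifs
        · exact sv_Bel (by omega) (hQ.bel _)
        · exact Subalgebra.zero_mem _

lemma Dl_append (α β : List ℕ) (f : Poly) : Dl (α ++ β) f = Dl β (Dl α f) := by
  induction α generalizing f with
  | nil => rfl
  | cons i α ih => exact ih (pd i f)

lemma Sch_word (v : Perm (Fin (m + 1))) :
    ∃ β : List ℕ, (∀ x ∈ β, x < m) ∧ Sch m v = Dl β (RR m []) := by
  revert v
  apply desc_induction
  · refine ⟨[], by simp, ?_⟩
    exact (Sch_fam m).top
  · rintro w i hi ⟨β, h1, h2⟩
    refine ⟨β ++ [(i : ℕ)], ?_, ?_⟩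
    · intro x hx
      rw [List.mem_append, List.mem_singleton] at hx
      rcases hx with h | h
      · exact h1 x h
      · rw [h]; exact i.isLt
    · rw [(Sch_fam m).step w i hi, h2, Dl_append]
      rfl

lemma iso_zero (v : Perm (Fin (m + 1))) : Iso m v 0 := by
  obtain ⟨β, h1, h2⟩ := Sch_word v
  refine ⟨m, [], β, le_refl _, by simp, h1, ?_⟩
  intro P _
  rw [lam_nil, ← h2, map_sum]
  rw [Finset.sum_eq_single v]
  · rw [map_mul, duality, if_pos rfl, mul_one]
    rfl
  · intro z _ hz
    rw [map_mul, duality, if_neg hz, mul_zero]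
  · intro h
    exact absurd (Finset.mem_univ v) h

/-- **every coefficient can be isolated** -/
theorem iso_all : ∀ (d m : ℕ) (v : Perm (Fin (m + 1))) (α : ℕ →₀ ℕ), α.degree = d →
    (∀ k, m < k → α k = 0) → Iso m v α := by
  intro d
  induction d with
  | zero =>
    intro m v α h1 _
    have : α = 0 := by
      rw [Finsupp.degree_eq_zero_iff] at h1
      exact h1
    rw [this]
    exact iso_zero v
  | succ d ih =>
    intro m v α h1 h2
    have hne : α ≠ 0 := by
      rintro rfl
      simp at h1
    have key : ∀ k : ℕ, k ≤ m + 1 → ∀ w : Perm (Fin (m + 2)),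
        ((w (Fin.last (m + 1)) : Fin (m + 2)) : ℕ) = k → (∀ l, k ≤ l → α l = 0) →
        IsoK m k w α := by
      intro k
      induction k with
      | zero =>
        intro _ w _ h3
        exfalso
        apply hne
        ext l
        exact h3 l (Nat.zero_le _)
      | succ k ihk =>
        intro hk w hw h3
        have hwj : w (Fin.last (m + 1)) = (⟨k, by omega⟩ : Fin (m + 1)).succ := by
          apply Fin.ext
          rw [hw]; rfl
        by_cases h4 : α k = 0
        · have h5 := ihk (by omega) (s (⟨k, by omega⟩ : Fin (m + 1)) * w) (by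
            rw [Perm.mul_apply, hwj, s_succ]; rfl) (by
            intro l hl
            rcases Nat.eq_or_lt_of_le hl with h6 | h6
            · rw [← h6]; exact h4
            · exact h3 l h6)
          exact isoK_step (j := ⟨k, by omega⟩) hwj (by
            show α k = α (k + 1)
            rw [h4, h3 (k + 1) (le_refl _)]) h5
        · -- decrease the exponent
          set α' := α - Finsupp.single k 1 with hα'
          have h5 : α' + Finsupp.single k 1 = α := by
            rw [hα']
            apply tsub_add_cancel_of_le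
            rw [Finsupp.single_le_iff]
            omega
          have h6 : α'.degree = d := by
            have := congrArg Finsupp.degree h5
            rw [map_add, Finsupp.degree_single, h1] at this
            omega
          have h7 : ∀ l, l ≠ k → α' l = α l := by
            intro l hl
            rw [← h5, Finsupp.add_apply, Finsupp.single_apply, if_neg (Ne.symm hl), add_zero]
          have h8 := ih (m + 1) w α' h6 (by
            intro l hl
            rw [h7 l (by omega)]
            exact h2 l (by omega))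
          have h9 := isoK_final (j := ⟨k, by omega⟩) hwj (by
            show α' (k + 1) = 0
            rw [h7 _ (by omega)]
            exact h3 _ (le_refl _)) h8
          simp only at h9
          rw [h5] at h9
          exact h9
    apply iso_of_isoK
    apply key (m + 1) (le_refl _)
    · rw [emb_last, Fin.val_last]
    · intro l hl
      exact h2 l (by omega)

end Q160.Red
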