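import Pool.Agent.Q160.SK.Stm

/-!
# Assembly of the induction step
-/

set_option autoImplicit false

namespace Pool.Agent.Q160.SK

open Filter Topology

lemma pre_of_good {A J C X : Type} [DecidableEq A] [Fintype A] [DecidableEq J] [DecidableEq C]
    [Fintype C] [AddCommGroup X] [Module ℚ X] {R : Dat A J} {O : Ops A J C X}
    {M : Submodule ℚ X} (i : J) (h : Good R O M) : Pre R O i M where
  hZ := h.rels.hZ
  he := fun a => h.rels.he a i
  eZ := fun a c => h.rels.eZ i a c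
  Zst := h.Zst
  est := h.est i
  bdd := h.bdd
  gen := h.gen

theorem t_STEP (hREL : S_REL) (hSTA : S_STA) (hSPA : S_SPA) (hFIN : S_FIN) (hSYM : S_SYM)
    (hDIM : S_DIM) (hGEN : S_GEN) (hVAN : S_VAN) (hPRK : S_PRK) (hTWI : S_TWI) (hGFU : S_GFU)
    (hLIM : S_LIM) : S_STEP := by
  intro A J C _ _ _ _ _ R D φ i h
  obtain ⟨X, _, _, O, M, hG, hl⟩ := h
  obtain ⟨k1, hk1⟩ := hVAN A J C X R O M i (pre_of_good i hG)
  obtain ⟨k2, hk2⟩ := hVAN A J C (A × C → X) R (tens R O) (kerM O M) i (hPRK A J C X R O M i hG)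
  set k : ℤ := max k1 k2 with hk
  set χ : A → ℤ := fun a => if a = R.src i then k else 0 with hχ
  have hχ1 : χ (R.tgt i) - χ (R.src i) = -k := by
    rw [hχ]
    show (if R.tgt i = R.src i then k else 0) - (if R.src i = R.src i then k else 0) = -k
    rw [if_neg (R.ne i).symm, if_pos rfl]
    ring
  obtain ⟨hG', hhs, hvan⟩ := hTWI A J C X R O M χ hG
  obtain ⟨hv1, hv2⟩ := hvan i k hχ1
  have hV1 := hv1 (hk1 k (le_max_left _ _))
  have hV2 := hv2 (hk2 k (le_max_right _ _))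
  obtain ⟨hf1, hf2, _⟩ := hFIN A J C X R (O.tw χ) M i hG'
  obtain ⟨hs1, hs2⟩ := hSYM A J C X R (O.tw χ) M i hG'
  have hd := hDIM A J C X R (O.tw χ) M i hG' hV1
  obtain ⟨hg1, hg2⟩ := hGFU A J R i
    (fun μ => (ind R (O.tw χ) i).dm (indM R (O.tw χ) i M) μ) (fun μ => (O.tw χ).dm M μ)
    hd hs1 hf2 hG'.summ
  obtain ⟨hst1, hst2, _⟩ := hSTA A J C X R (O.tw χ) M i hG'
  refine ⟨ℕ →₀ X, inferInstance, inferInstance, ind R (O.tw χ) i, indM R (O.tw χ) i M, ?_, ?_⟩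
  · exact {
      rels := hREL A J C X R (O.tw χ) i hG'.rels
      Zst := hst1
      est := hst2
      span := hSPA A J C X R (O.tw χ) M i hG'
      fin := hf1
      bdd := hs2
      gen := hGEN A J C X R (O.tw χ) M i hG' hV1 hV2
      summ := hg1 }
  · apply hLIM A J R i D χ (fun t => O.hs M t)
      (fun t => (ind R (O.tw χ) i).hs (indM R (O.tw χ) i M) t) φ _ hl
    intro t ht
    have h1 := hg2 t ht
    have h2 : (∑' μ : A → ℤ, ((O.tw χ).dm M μ : ℝ) * Real.exp (-(∑ x, (μ x : ℝ) * t x)))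
        = Real.exp (-(∑ a, (χ a : ℝ) * t a)) * O.hs M t := hhs t
    have h3 : (∑' μ : A → ℤ, ((O.tw χ).dm M μ : ℝ) *
          Real.exp (-(∑ x, (μ x : ℝ) * t (R.sw i x))))
        = Real.exp (-(∑ a, (χ a : ℝ) * t (R.sw i a))) * O.hs M (fun a => t (R.sw i a)) :=
      hhs (fun a => t (R.sw i a))
    rw [h2, h3] at h1
    exact h1

end Pool.Agent.Q160.SK
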