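import Pool.Agent.Q160.SK.Base

/-!
# Statements of the lemmas of the project

Every lemma job proves `theorem t_NAME : S_NAME` (possibly from other statements as hypotheses).
-/

set_option autoImplicit false

namespace Pool.Agent.Q160.SK

open Filter Topology

/-! ### JOB SL2 : representations of sl2 -/

/-- algebraic identity -/
def S_SL0 : Prop := ∀ (Y : Type) [AddCommGroup Y] [Module ℚ Y] (E F H : Module.End ℚ Y),
  E * F = F * E + H → H * E = E * H + (2 : ℚ) • E → H * F = F * H - (2 : ℚ) • F →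
  ∀ (p : ℕ) (y : Y), F y = 0 → H y = (-(p : ℚ)) • y → F ((E ^ (p + 1)) y) = 0

/-- surjectivity and vanishing in strings -/
def S_SLS : Prop := ∀ (Y : Type) [AddCommGroup Y] [Module ℚ Y] (E F H : Module.End ℚ Y)
  (W : ℤ → Submodule ℚ Y) (a : ℤ), Str E F H W a →
  (∀ (n : ℤ) (q : ℕ), a + 2 * n = q → ∀ y ∈ W n, ∃ x ∈ W (n - q), (E ^ q) x = y) ∧
  (∀ (n : ℤ) (q : ℕ), a + 2 * n = -(q : ℤ) → ∀ y ∈ W n, ∃ x ∈ W (n + q), (F ^ q) x = y) ∧
  (∀ n : ℤ, a + 2 * n ≤ 1 → ∀ y ∈ W (n - 1), ∃ x ∈ W n, F x = y) ∧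
  (∀ n : ℤ, 0 < a + 2 * n → ∀ y ∈ W n, F y = 0 → y = 0) ∧
  (∀ (n : ℤ) (p : ℕ), a + 2 * n = -(p : ℤ) → ∀ y ∈ W n, F y = 0 → (E ^ (p + 1)) y = 0)

/-- symmetry of the dimensions -/
def S_SLF : Prop := ∀ (Y : Type) [AddCommGroup Y] [Module ℚ Y] (E F H : Module.End ℚ Y)
  (W : ℤ → Submodule ℚ Y) (a : ℤ), Str E F H W a → (∀ n, Module.Finite ℚ ↥(W n)) →
  ∀ n : ℤ, Module.finrank ℚ ↥(W n) = Module.finrank ℚ ↥(W (-a - n))

/-- generation by lowest weight vectors -/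
def S_SLG : Prop := ∀ (Y : Type) [AddCommGroup Y] [Module ℚ Y] (E F H : Module.End ℚ Y)
  (W P : ℤ → Submodule ℚ Y) (a : ℤ), Str E F H W a →
  (∀ n, ∀ x ∈ P n, E x ∈ P (n + 1)) → (∀ n, ∀ y ∈ W n, F y = 0 → y ∈ P n) → ∀ n, W n ≤ P n

/-! ### JOB REL : the relations on `X[z]` -/

def S_REL : Prop := ∀ (A J C X : Type) [DecidableEq A] [Fintype A] [DecidableEq J] [DecidableEq C]
  [Fintype C] [AddCommGroup X] [Module ℚ X] (R : Dat A J) (O : Ops A J C X) (i : J),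
  Rels R O → Rels R (ind R O i)

/-- the sl2-triple on `X[z]` and the commutators with `dd` -/
def S_SLI : Prop := ∀ (A J C X : Type) [DecidableEq A] [Fintype A] [DecidableEq J] [DecidableEq C]
  [Fintype C] [AddCommGroup X] [Module ℚ X] (R : Dat A J) (O : Ops A J C X) (i : J),
  Rels R O →
  (ind R O i).e i * (-dd) = (-dd) * (ind R O i).e i
    + ((ind R O i).h (R.tgt i) - (ind R O i).h (R.src i)) ∧
  ((ind R O i).h (R.tgt i) - (ind R O i).h (R.src i)) * (ind R O i).e i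
    = (ind R O i).e i * ((ind R O i).h (R.tgt i) - (ind R O i).h (R.src i))
      + (2 : ℚ) • (ind R O i).e i ∧
  ((ind R O i).h (R.tgt i) - (ind R O i).h (R.src i)) * (-dd)
    = (-dd) * ((ind R O i).h (R.tgt i) - (ind R O i).h (R.src i)) - (2 : ℚ) • (-dd) ∧
  (∀ a c, (-dd) * (ind R O i).Z a c = (ind R O i).Z a c * (-dd)
    + (if a = R.tgt i then (ind R O i).Z (R.src i) c else 0)) ∧
  (∀ j, j ≠ i → (-dd) * (ind R O i).e j = (ind R O i).e j * (-dd)) ∧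
  (∀ a, (ind R O i).h a * (-dd) = (-dd) * (ind R O i).h a - (R.al i a : ℚ) • (-dd))

/-! ### JOBS STA, SPA, FIN : the induced module -/

def S_STA : Prop := ∀ (A J C X : Type) [DecidableEq A] [Fintype A] [DecidableEq J] [DecidableEq C]
  [Fintype C] [AddCommGroup X] [Module ℚ X] (R : Dat A J) (O : Ops A J C X) (M : Submodule ℚ X)
  (i : J), Good R O M →
  (∀ a c, ∀ f ∈ indM R O i M, (ind R O i).Z a c f ∈ indM R O i M) ∧
  (∀ j, ∀ f ∈ indM R O i M, (ind R O i).e j f ∈ indM R O i M) ∧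
  (∀ f ∈ indM R O i M, (-dd : Module.End ℚ (ℕ →₀ X)) f ∈ indM R O i M)

def S_SPA : Prop := ∀ (A J C X : Type) [DecidableEq A] [Fintype A] [DecidableEq J] [DecidableEq C]
  [Fintype C] [AddCommGroup X] [Module ℚ X] (R : Dat A J) (O : Ops A J C X) (M : Submodule ℚ X)
  (i : J), Good R O M → indM R O i M ≤ ⨆ μ, indM R O i M ⊓ (ind R O i).W μ

def S_FIN : Prop := ∀ (A J C X : Type) [DecidableEq A] [Fintype A] [DecidableEq J] [DecidableEq C]
  [Fintype C] [AddCommGroup X] [Module ℚ X] (R : Dat A J) (O : Ops A J C X) (M : Submodule ℚ X)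
  (i : J), Good R O M →
  (∀ μ, Module.Finite ℚ ↥(indM R O i M ⊓ (ind R O i).W μ)) ∧
  (∀ μ, ∃ Q : ℕ, (ind R O i).dm (indM R O i M) μ
    ≤ ∑ q ∈ Finset.range Q, O.dm M (μ - (q : ℤ) • R.al i)) ∧
  (∃ c : ℤ, ∀ μ, indM R O i M ⊓ (ind R O i).W μ ≠ ⊥ → ∀ a, a ≠ R.src i → -c ≤ μ a)

/-- the strings of the induced module (from SLI, STA) -/
def S_STR : Prop := ∀ (A J C X : Type) [DecidableEq A] [Fintype A] [DecidableEq J] [DecidableEq C]
  [Fintype C] [AddCommGroup X] [Module ℚ X] (R : Dat A J) (O : Ops A J C X) (M : Submodule ℚ X)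
  (i : J), Good R O M → ∀ μ : A → ℤ,
  Str ((ind R O i).e i) (-dd) ((ind R O i).h (R.tgt i) - (ind R O i).h (R.src i))
    (fun n : ℤ => indM R O i M ⊓ (ind R O i).W (μ + n • R.al i)) (μ (R.tgt i) - μ (R.src i))

/-- from STR, SLF, FIN -/
def S_SYM : Prop := ∀ (A J C X : Type) [DecidableEq A] [Fintype A] [DecidableEq J] [DecidableEq C]
  [Fintype C] [AddCommGroup X] [Module ℚ X] (R : Dat A J) (O : Ops A J C X) (M : Submodule ℚ X)
  (i : J), Good R O M →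
  (∀ μ : A → ℤ, (ind R O i).dm (indM R O i M) (fun a => μ (R.sw i a))
    = (ind R O i).dm (indM R O i M) μ) ∧
  (∃ c : ℤ, ∀ μ, indM R O i M ⊓ (ind R O i).W μ ≠ ⊥ → ∀ a, -c ≤ μ a)

/-! ### JOB DIM : the character of the induced module -/

/-- lowest weight vectors -/
def S_LOW : Prop := ∀ (A J C X : Type) [DecidableEq A] [Fintype A] [DecidableEq J] [DecidableEq C]
  [Fintype C] [AddCommGroup X] [Module ℚ X] (R : Dat A J) (O : Ops A J C X) (M : Submodule ℚ X)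
  (i : J), Good R O M → ∀ (p : ℕ) (μ : A → ℤ), μ (R.tgt i) - μ (R.src i) = -(p : ℤ) →
  ∀ f : ℕ →₀ X, (f ∈ indM R O i M ⊓ (ind R O i).W μ ∧ (-dd : Module.End ℚ (ℕ →₀ X)) f = 0) ↔
    ∃ m ∈ M ⊓ O.W μ, (O.e i ^ (p + 1)) m = 0 ∧ f = Finsupp.single 0 m

def S_DIM : Prop := ∀ (A J C X : Type) [DecidableEq A] [Fintype A] [DecidableEq J] [DecidableEq C]
  [Fintype C] [AddCommGroup X] [Module ℚ X] (R : Dat A J) (O : Ops A J C X) (M : Submodule ℚ X)
  (i : J), Good R O M → Van R O i M 0 → ∀ μ : A → ℤ,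
  ((ind R O i).dm (indM R O i M) μ : ℤ) - (ind R O i).dm (indM R O i M) (μ - R.al i)
    = O.dm M μ - O.dm M ((fun a => μ (R.sw i a)) + R.al i)

/-! ### JOB GEN : the induced module is finitely generated -/

def S_GEN : Prop := ∀ (A J C X : Type) [DecidableEq A] [Fintype A] [DecidableEq J] [DecidableEq C]
  [Fintype C] [AddCommGroup X] [Module ℚ X] (R : Dat A J) (O : Ops A J C X) (M : Submodule ℚ X)
  (i : J), Good R O M → Van R O i M 0 → Van R (tens R O) i (kerM O M) 0 →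
  ∃ d : ℤ, ∀ μ, d < ∑ a, μ a → indM R O i M ⊓ (ind R O i).W μ ≤
    ⨆ p : A × C, (indM R O i M ⊓ (ind R O i).W (μ - Pi.single p.1 1)).map
      ((ind R O i).Z p.1 p.2)

/-! ### JOB VAN : vanishing -/

def S_VAN : Prop := ∀ (A J C X : Type) [DecidableEq A] [Fintype A] [DecidableEq J] [DecidableEq C]
  [Fintype C] [AddCommGroup X] [Module ℚ X] (R : Dat A J) (O : Ops A J C X) (M : Submodule ℚ X)
  (i : J), Pre R O i M → ∃ k₀ : ℤ, ∀ k, k₀ ≤ k → Van R O i M k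

/-! ### JOB NOE : Hilbert's basis theorem for the kernel of the multiplication map -/

def S_NOE : Prop := ∀ (A J C X : Type) [DecidableEq A] [Fintype A] [DecidableEq J] [DecidableEq C]
  [Fintype C] [AddCommGroup X] [Module ℚ X] (R : Dat A J) (O : Ops A J C X) (M : Submodule ℚ X),
  Good R O M → ∃ d : ℤ, ∀ μ, d < ∑ a, μ a → kerM O M ⊓ (tens R O).W μ ≤
    ⨆ p : A × C, (kerM O M ⊓ (tens R O).W (μ - Pi.single p.1 1)).map ((tens R O).Z p.1 p.2)

/-- (from NOE) -/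
def S_PRK : Prop := ∀ (A J C X : Type) [DecidableEq A] [Fintype A] [DecidableEq J] [DecidableEq C]
  [Fintype C] [AddCommGroup X] [Module ℚ X] (R : Dat A J) (O : Ops A J C X) (M : Submodule ℚ X)
  (i : J), Good R O M → Pre R (tens R O) i (kerM O M)

/-! ### JOB TWI : twist by a character -/

def S_TWI : Prop := ∀ (A J C X : Type) [DecidableEq A] [Fintype A] [DecidableEq J] [DecidableEq C]
  [Fintype C] [AddCommGroup X] [Module ℚ X] (R : Dat A J) (O : Ops A J C X) (M : Submodule ℚ X)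
  (χ : A → ℤ), Good R O M → Good R (O.tw χ) M ∧
  (∀ t : A → ℝ, (O.tw χ).hs M t = Real.exp (-(∑ a, (χ a : ℝ) * t a)) * O.hs M t) ∧
  (∀ (i : J) (k : ℤ), χ (R.tgt i) - χ (R.src i) = -k →
    (Van R O i M k → Van R (O.tw χ) i M 0) ∧
    (Van R (tens R O) i (kerM O M) k → Van R (tens R (O.tw χ)) i (kerM (O.tw χ) M) 0))

/-! ### JOBS GFU, LIM : generating functions -/

def S_GFU : Prop := ∀ (A J : Type) [DecidableEq A] [Fintype A] [DecidableEq J] (R : Dat A J)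
  (i : J) (a b : (A → ℤ) → ℕ),
  (∀ μ, (a μ : ℤ) - a (μ - R.al i) = b μ - b ((fun x => μ (R.sw i x)) + R.al i)) →
  (∀ μ, a (fun x => μ (R.sw i x)) = a μ) →
  (∀ μ, ∃ Q : ℕ, a μ ≤ ∑ q ∈ Finset.range Q, b (μ - (q : ℤ) • R.al i)) →
  (∀ t ∈ R.U, Summable (fun μ : A → ℤ => (b μ : ℝ) * Real.exp (-(∑ x, (μ x : ℝ) * t x)))) →
  (∀ t ∈ R.U, Summable (fun μ : A → ℤ => (a μ : ℝ) * Real.exp (-(∑ x, (μ x : ℝ) * t x)))) ∧
  (∀ t ∈ R.U, (Real.exp (-t (R.src i)) - Real.exp (-t (R.tgt i))) *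
      (∑' μ : A → ℤ, (a μ : ℝ) * Real.exp (-(∑ x, (μ x : ℝ) * t x)))
    = Real.exp (-t (R.src i)) * (∑' μ : A → ℤ, (b μ : ℝ) * Real.exp (-(∑ x, (μ x : ℝ) * t x)))
      - Real.exp (-t (R.tgt i)) *
        (∑' μ : A → ℤ, (b μ : ℝ) * Real.exp (-(∑ x, (μ x : ℝ) * t (R.sw i x)))))

def S_LIM : Prop := ∀ (A J : Type) [DecidableEq A] [Fintype A] [DecidableEq J] (R : Dat A J)
  (i : J) (D : ℕ) (χ : A → ℤ) (F F' : (A → ℝ) → ℝ) (φ : (A → ℝ) → ℝ),
  (∀ t ∈ R.U, (Real.exp (-t (R.src i)) - Real.exp (-t (R.tgt i))) * F' t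
    = Real.exp (-t (R.src i)) * (Real.exp (-(∑ a, (χ a : ℝ) * t a)) * F t)
      - Real.exp (-t (R.tgt i)) * (Real.exp (-(∑ a, (χ a : ℝ) * t (R.sw i a))) *
        F (fun a => t (R.sw i a)))) →
  (∀ t ∈ R.U, Tendsto (fun ε : ℝ => ε ^ D * F (ε • t)) (𝓝[>] 0) (𝓝 (φ t))) →
  ∀ t ∈ R.U, Tendsto (fun ε : ℝ => ε ^ (D + 1) * F' (ε • t)) (𝓝[>] 0)
    (𝓝 ((φ t - φ (fun a => t (R.sw i a))) / (t (R.tgt i) - t (R.src i))))

/-! ### assembled step -/

def S_STEP : Prop := ∀ (A J C : Type) [DecidableEq A] [Fintype A] [DecidableEq J] [DecidableEq C]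
  [Fintype C] (R : Dat A J) (D : ℕ) (φ : (A → ℝ) → ℝ) (i : J), HasLead R C D φ →
  HasLead R C (D + 1)
    (fun t => (φ t - φ (fun a => t (R.sw i a))) / (t (R.tgt i) - t (R.src i)))

/-! ### JOB DIA : restriction to the diagonal -/

def S_DIA : Prop := ∀ (A J C : Type) [DecidableEq A] [Fintype A] [DecidableEq J] [DecidableEq C]
  [Fintype C] (R : Dat A J) (D : ℕ) (φ : (Bool × A → ℝ) → ℝ),
  (∀ a b, R.side a = R.side b) → HasLead R.dbl C D φ →
  HasLead R (Bool × C) D (fun t => φ (fun p => t p.2))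

/-! ### JOB BAS : the coordinate ring of a linear subspace -/

def S_BAS : Prop := ∀ (A J C : Type) [DecidableEq A] [Fintype A] [DecidableEq J] [DecidableEq C]
  [Fintype C] (R : Dat A J) (P : Finset (A × C)),
  (∀ j c, (R.tgt j, c) ∈ P → (R.src j, c) ∈ P) →
  HasLead R C P.card (fun t => ∏ p ∈ P, (t p.1)⁻¹)

end Pool.Agent.Q160.SK
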